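import Mathlib
set_option autoImplicit false
set_option linter.all false

namespace H294OStar

/-- strict normal cone of a group (a bi-invariant partial order) -/
structure Cone {G : Type} [Group G] (P : Set G) : Prop where
  mul : ∀ a ∈ P, ∀ b ∈ P, a * b ∈ P
  conj : ∀ a ∈ P, ∀ g : G, g * a * g⁻¹ ∈ P
  one : (1 : G) ∉ P

/-- a total order -/
def Total {G : Type} [Group G] (P : Set G) : Prop := ∀ g : G, g ≠ 1 → g ∈ P ∨ g⁻¹ ∈ P

/-- the normal subsemigroup generated by `g` -/
inductive NS {G : Type} [Group G] (g : G) : G → Prop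
  | conj (x : G) : NS g (x * g * x⁻¹)
  | mul (a b : G) : NS g a → NS g b → NS g (a * b)

/-- `x` is central modulo `N` -/
def Cen {G : Type} [Group G] (N : Subgroup G) (x : G) : Prop := ∀ w : G, x * w * x⁻¹ * w⁻¹ ∈ N

/-- iterated commutators with the whole group -/
def LS {G : Type} [Group G] (N : Subgroup G) : ℕ → Subgroup G
  | 0 => N
  | (k + 1) => ⁅LS N k, (⊤ : Subgroup G)⁆

/-- `J` is a convex normal subgroup contained in `T` (for the order given by `P`) -/
structure CN {G : Type} [Group G] (T : Subgroup G) (P : Set G) (J : Subgroup G) : Prop where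
  nor : J.Normal
  le : J ≤ T
  conv : ∀ a ∈ J, ∀ b ∈ T, b ∈ P → b⁻¹ * a ∈ P → b ∈ J

/-- `T` is a normal subgroup totally ordered by the cone `P`, `J` is its largest convex normal subgroup avoiding `τ` -/
structure Lev {G : Type} [Group G] (T : Subgroup G) (P : Set G) (τ : G) (J : Subgroup G) : Prop where
  hT : T.Normal
  hP : Cone P
  htot : ∀ y ∈ T, y = 1 ∨ y ∈ P ∨ y⁻¹ ∈ P
  hτT : τ ∈ T
  hτP : τ ∈ P
  hJ : CN T P J
  hτJ : τ ∉ J
  max : ∀ K : Subgroup G, CN T P K → τ ∉ K → K ≤ J

end H294OStar
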