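import Pool.Agent.Helper294.OSt.Core
set_option autoImplicit false
set_option linter.all false

namespace H294OStar

section ucen
variable {Q : Type} [Group Q] [PartialOrder Q] [MulLeftMono Q] [MulRightMono Q]

theorem uc_total {Tb : Subgroup Q} (htot : ∀ y ∈ Tb, 1 ≤ y ∨ y ≤ 1) {a b : Q} (ha : a ∈ Tb) (hb : b ∈ Tb) :
    a ≤ b ∨ b ≤ a := by
  rcases htot (a⁻¹ * b) (Tb.mul_mem (Tb.inv_mem ha) hb) with h | h
  · left
    have := mul_le_mul_right h a
    simpa using this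
  · right
    have := mul_le_mul_right h a
    simpa using this

theorem uc_conj {a b : Q} (h : a ≤ b) (w : Q) : w * a * w⁻¹ ≤ w * b * w⁻¹ :=
  mul_le_mul_left (mul_le_mul_right h w) w⁻¹

theorem uc_abs {Tb : Subgroup Q} (htot : ∀ y ∈ Tb, 1 ≤ y ∨ y ≤ 1) {τ x : Q} (hx : x ∈ Tb)
    (h : ∀ n : ℕ, x ^ n < τ ∧ (x⁻¹) ^ n < τ) :
    ∃ z ∈ Tb, x ≤ z ∧ x⁻¹ ≤ z ∧ 1 ≤ z ∧ ∀ n : ℕ, z ^ n < τ := by
  rcases htot x hx with h1 | h1
  · exact ⟨x, hx, le_rfl, (inv_le_one'.2 h1).trans h1, h1, fun n => (h n).1⟩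
  · exact ⟨x⁻¹, Tb.inv_mem hx, h1.trans (one_le_inv'.2 h1), le_rfl, one_le_inv'.2 h1, fun n => (h n).2⟩

theorem uc_arch (Tb : Subgroup Q) (hN : Tb.Normal) (htot : ∀ y ∈ Tb, 1 ≤ y ∨ y ≤ 1) (τ : Q)
    (hτ : 1 < τ) (hτT : τ ∈ Tb) (hc : ∀ w : Q, w * τ * w⁻¹ = τ)
    (hmax : ∀ K : Subgroup Q, K.Normal → K ≤ Tb → (∀ a ∈ K, ∀ b ∈ Tb, 1 ≤ b → b ≤ a → b ∈ K) →
      τ ∉ K → K = ⊥) (d : Q) (hd : d ∈ Tb) (hd1 : 1 < d) : ∃ n : ℕ, τ ≤ d ^ n := by
  let K : Subgroup Q :=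
    { carrier := {x | x ∈ Tb ∧ ∀ n : ℕ, x ^ n < τ ∧ (x⁻¹) ^ n < τ}
      one_mem' := ⟨Tb.one_mem, fun n => by simpa using hτ⟩
      inv_mem' := by
        rintro x ⟨hx, h⟩
        refine ⟨Tb.inv_mem hx, fun n => ⟨(h n).2, ?_⟩⟩
        rw [inv_inv]; exact (h n).1
      mul_mem' := by
        rintro x y ⟨hx, h⟩ ⟨hy, h'⟩
        refine ⟨Tb.mul_mem hx hy, ?_⟩
        obtain ⟨z1, hz1, a1, a2, a3, a4⟩ := uc_abs htot hx h
        obtain ⟨z2, hz2, b1, b2, b3, b4⟩ := uc_abs htot hy h'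
        obtain ⟨z, c1, c2, c3, c4⟩ : ∃ z : Q, z1 ≤ z ∧ z2 ≤ z ∧ 1 ≤ z ∧ ∀ n : ℕ, z ^ n < τ := by
          rcases uc_total htot hz1 hz2 with h3 | h3
          · exact ⟨z2, h3, le_rfl, b3, b4⟩
          · exact ⟨z1, le_rfl, h3, a3, a4⟩
        intro n
        have k1 : x * y ≤ z ^ 2 := by
          rw [pow_two]; exact mul_le_mul' (a1.trans c1) (b1.trans c2)
        have k2 : (x * y)⁻¹ ≤ z ^ 2 := by
          rw [pow_two, mul_inv_rev]; exact mul_le_mul' (b2.trans c2) (a2.trans c1)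
        have k3 : (z ^ 2) ^ n < τ := by rw [← pow_mul]; exact c4 _
        exact ⟨(pow_le_pow_left' k1 n).trans_lt k3, (pow_le_pow_left' k2 n).trans_lt k3⟩ }
  have hK : K = ⊥ := by
    refine hmax K ?_ ?_ ?_ ?_
    · refine ⟨fun x hx w => ?_⟩
      obtain ⟨hx1, hx2⟩ := hx
      refine ⟨hN.conj_mem x hx1 w, fun n => ?_⟩
      have conjlt : ∀ a : Q, a < τ → w * a * w⁻¹ < τ := by
        intro a ha
        refine lt_of_le_of_ne ?_ ?_
        · have := uc_conj ha.le w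
          rwa [hc] at this
        · intro he
          have : a = τ := by
            have h2 : w⁻¹ * (w * a * w⁻¹) * w = w⁻¹ * τ * w := by rw [he]
            have h3 := hc w⁻¹
            rw [inv_inv] at h3
            rw [h3] at h2
            rw [← h2]; group
          exact ha.ne this
      constructor
      · rw [conj_pow]; exact conjlt _ (hx2 n).1
      · have e : (w * x * w⁻¹)⁻¹ = w * x⁻¹ * w⁻¹ := by group
        rw [e, conj_pow]; exact conjlt _ (hx2 n).2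
    · intro x hx; exact hx.1
    · intro a ha b hb h1 hba
      refine ⟨hb, fun n => ⟨(pow_le_pow_left' hba n).trans_lt (ha.2 n).1, ?_⟩⟩
      have : (b⁻¹) ^ n ≤ 1 := pow_le_one' (inv_le_one'.2 h1) n
      exact this.trans_lt hτ
    · intro hτK
      have := (hτK.2 1).1
      rw [pow_one] at this
      exact lt_irrefl _ this
  by_contra hcon
  push Not at hcon
  have hdK : d ∈ K := by
    refine ⟨hd, fun n => ⟨?_, ?_⟩⟩
    · rcases uc_total htot (Tb.pow_mem hd n) hτT with h | h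
      · refine lt_of_le_of_ne h ?_
        intro he
        exact hcon n he.ge
      · exact absurd h (hcon n)
    · have : (d⁻¹) ^ n ≤ 1 := pow_le_one' (inv_le_one'.2 hd1.le) n
      exact this.trans_lt hτ
  rw [hK, Subgroup.mem_bot] at hdK
  exact hd1.ne' hdK

theorem uc_min {Tb : Subgroup Q} (htot : ∀ y ∈ Tb, 1 ≤ y ∨ y ≤ 1) (e : ℕ → Q) (he : ∀ i, e i ∈ Tb) (N : ℕ) :
    ∃ i0, ∀ i ≤ N, e i0 ≤ e i := by
  induction N with
  | zero => exact ⟨0, fun i hi => by rw [Nat.le_zero.1 hi]⟩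
  | succ N ih =>
    obtain ⟨i0, h0⟩ := ih
    rcases uc_total htot (he i0) (he (N + 1)) with h | h
    · refine ⟨i0, fun i hi => ?_⟩
      rcases Nat.le_succ_iff.1 hi with h1 | h1
      · exact h0 i h1
      · rw [h1]; exact h
    · refine ⟨N + 1, fun i hi => ?_⟩
      rcases Nat.le_succ_iff.1 hi with h1 | h1
      · exact h.trans (h0 i h1)
      · rw [h1]

theorem uc_main (Tb : Subgroup Q) (hN : Tb.Normal) (htot : ∀ y ∈ Tb, 1 ≤ y ∨ y ≤ 1) (τ : Q)
    (hτ : 1 < τ) (hτT : τ ∈ Tb) (hc : ∀ w : Q, w * τ * w⁻¹ = τ)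
    (hmax : ∀ K : Subgroup Q, K.Normal → K ≤ Tb → (∀ a ∈ K, ∀ b ∈ Tb, 1 ≤ b → b ≤ a → b ∈ K) →
      τ ∉ K → K = ⊥) (u : Q) (hu : ∀ w : Q, u⁻¹ * w * u * w⁻¹ ∈ Tb)
    (hub : ∀ w : Q, u⁻¹ * w * u * w⁻¹ ≤ τ) (w : Q) : u⁻¹ * w * u * w⁻¹ = 1 := by
  have key : ∀ w : Q, ¬ (1 < u⁻¹ * w * u * w⁻¹) := by
    intro w hw
    set d := u⁻¹ * w * u * w⁻¹ with hd
    obtain ⟨n, hn⟩ := uc_arch Tb hN htot τ hτ hτT hc hmax d (hu w) hw
    set e : ℕ → Q := fun i => w ^ i * d * (w ^ i)⁻¹ with he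
    have heT : ∀ i, e i ∈ Tb := fun i => hN.conj_mem d (hu w) (w ^ i)
    have hen : ∀ i, τ ≤ e i ^ n := by
      intro i
      have := uc_conj hn (w ^ i)
      rw [hc] at this
      simp only [he, conj_pow]
      exact this
    obtain ⟨i0, hi0⟩ := uc_min htot e heT (2 * n)
    have hprod : ∀ m ≤ 2 * n, e i0 ^ m ≤ u⁻¹ * w ^ m * u * (w ^ m)⁻¹ := by
      intro m
      induction m with
      | zero => intro _; simp
      | succ m ih =>
        intro hm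
        have h1 := ih (by omega)
        have h2 := hi0 m (by omega)
        have e1 : u⁻¹ * w ^ (m + 1) * u * (w ^ (m + 1))⁻¹ = (u⁻¹ * w ^ m * u * (w ^ m)⁻¹) * e m := by
          simp only [he, hd, pow_succ]; group
        rw [e1, pow_succ]
        exact mul_le_mul' h1 h2
    have h3 := (hprod (2 * n) le_rfl).trans (hub (w ^ (2 * n)))
    have h4 : τ * τ ≤ e i0 ^ (2 * n) := by
      rw [two_mul, pow_add]; exact mul_le_mul' (hen i0) (hen i0)
    have h5 : τ * τ ≤ τ := h4.trans h3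
    have h6 : τ ≤ 1 := by
      have := mul_le_mul_right h5 τ⁻¹
      simpa using this
    exact absurd h6 (not_le_of_gt hτ)
  rcases htot _ (hu w) with h | h
  · by_contra hne
    exact key w (lt_of_le_of_ne h (Ne.symm hne))
  · by_contra hne
    have h1 : 1 ≤ (u⁻¹ * w * u * w⁻¹)⁻¹ := one_le_inv'.2 h
    have h2 := uc_conj h1 w⁻¹
    have e1 : w⁻¹ * (u⁻¹ * w * u * w⁻¹)⁻¹ * w⁻¹⁻¹ = u⁻¹ * w⁻¹ * u * w⁻¹⁻¹ := by group
    have e2 : w⁻¹ * 1 * w⁻¹⁻¹ = 1 := by group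
    rw [e1, e2] at h2
    refine key w⁻¹ (lt_of_le_of_ne h2 ?_)
    intro h3
    apply hne
    rw [← e1] at h3
    have h4 : (u⁻¹ * w * u * w⁻¹)⁻¹ = w * 1 * w⁻¹ := by
      rw [h3]; group
    have h5 : (u⁻¹ * w * u * w⁻¹)⁻¹ = 1 := by rw [h4]; group
    exact inv_eq_one.1 h5

end ucen

theorem U_central {G : Type} [Group G] (T : Subgroup G) (P : Set G) (J : Subgroup G) (U V : G)
    (hUP : U⁻¹ ∈ P) (hVP : V ∈ P) (hLev : Lev T P (U⁻¹ * V) J) (hτ : Cen J (U⁻¹ * V)) (hUT : Cen T U) : Cen J U := by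
  obtain ⟨hT, hP, htot, hτT, hτP, hJ, hτJ, hmax⟩ := hLev
  haveI := hJ.nor
  let π : G →* G ⧸ J := QuotientGroup.mk' J
  have hπ1 : ∀ x : G, π x = 1 ↔ x ∈ J := fun x => QuotientGroup.eq_one_iff x
  have hπs : Function.Surjective π := QuotientGroup.mk'_surjective J
  let PQ : Set (G ⧸ J) := {q | q ≠ 1 ∧ ∃ x ∈ T, x ∈ P ∧ π x = q}
  have hPQmul : ∀ a ∈ PQ, ∀ b ∈ PQ, a * b ∈ PQ := by
    rintro a ⟨ha1, x, hx1, hx2, rfl⟩ b ⟨hb1, y, hy1, hy2, rfl⟩
    refine ⟨?_, x * y, T.mul_mem hx1 hy1, hP.mul x hx2 y hy2, map_mul π x y⟩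
    rw [← map_mul, Ne, hπ1]
    intro hxy
    apply ha1
    rw [hπ1]
    exact hJ.conv (x * y) hxy x hx1 hx2 (by simpa using hy2)
  have hPQconj : ∀ a ∈ PQ, ∀ g : G ⧸ J, g * a * g⁻¹ ∈ PQ := by
    rintro a ⟨ha1, x, hx1, hx2, rfl⟩ g
    obtain ⟨g, rfl⟩ := hπs g
    refine ⟨?_, g * x * g⁻¹, hT.conj_mem x hx1 g, hP.conj x hx2 g, by simp⟩
    intro h
    apply ha1
    have : π x = (π g)⁻¹ * (π g * π x * (π g)⁻¹) * π g := by group
    rw [this, h]; group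
  letI po : PartialOrder (G ⧸ J) :=
    { le := fun a b => a = b ∨ a⁻¹ * b ∈ PQ
      le_refl := fun a => Or.inl rfl
      le_trans := by
        rintro a b c (rfl | h1) (rfl | h2)
        · exact Or.inl rfl
        · exact Or.inr h2
        · exact Or.inr h1
        · right
          have := hPQmul _ h1 _ h2
          have e : a⁻¹ * b * (b⁻¹ * c) = a⁻¹ * c := by group
          rwa [e] at this
      le_antisymm := by
        rintro a b (rfl | h1) (h2 | h2)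
        · rfl
        · rfl
        · exact h2.symm
        · exfalso
          have := hPQmul _ h1 _ h2
          have e : a⁻¹ * b * (b⁻¹ * a) = 1 := by group
          rw [e] at this
          exact this.1 rfl }
  have hle : ∀ a b : G ⧸ J, a ≤ b ↔ (a = b ∨ a⁻¹ * b ∈ PQ) := fun a b => Iff.rfl
  haveI : MulLeftMono (G ⧸ J) := ⟨by
    intro c a b h
    rcases h with rfl | h
    · exact Or.inl rfl
    · right
      show (c * a)⁻¹ * (c * b) ∈ PQ
      have e : (c * a)⁻¹ * (c * b) = a⁻¹ * b := by group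
      rwa [e]⟩
  haveI : MulRightMono (G ⧸ J) := ⟨by
    intro c a b h
    rcases h with rfl | h
    · exact Or.inl rfl
    · right
      show (a * c)⁻¹ * (b * c) ∈ PQ
      have e : (a * c)⁻¹ * (b * c) = c⁻¹ * (a⁻¹ * b) * (c⁻¹)⁻¹ := by group
      rw [e]
      exact hPQconj _ h _⟩
  -- positive elements of T
  have hpos : ∀ x ∈ T, x ∈ P → (1 : G ⧸ J) ≤ π x := by
    intro x hx hxP
    rw [hle]
    by_cases h : π x = 1
    · exact Or.inl h.symm
    · right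
      rw [inv_one, one_mul]
      exact ⟨h, x, hx, hxP, rfl⟩
  have hposle : ∀ a b : G, a⁻¹ * b ∈ T → a⁻¹ * b ∈ P → π a ≤ π b := by
    intro a b h1 h2
    have h3 := mul_le_mul_right (hpos _ h1 h2) (π a)
    rw [map_mul, map_inv, mul_one, mul_inv_cancel_left] at h3
    exact h3
  set Tb : Subgroup (G ⧸ J) := T.map π with hTb
  have hTbN : Tb.Normal := hT.map π hπs
  have htotb : ∀ y ∈ Tb, (1 : G ⧸ J) ≤ y ∨ y ≤ 1 := by
    rintro y ⟨t, ht, rfl⟩
    rcases htot t ht with rfl | h | h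
    · left; rw [map_one]
    · left; exact hpos t ht h
    · right
      have := hpos t⁻¹ (T.inv_mem ht) h
      rw [map_inv] at this
      exact one_le_inv'.1 this
  have hτ1 : (1 : G ⧸ J) < π (U⁻¹ * V) := by
    refine lt_of_le_of_ne (hpos _ hτT hτP) ?_
    intro h
    exact hτJ ((hπ1 _).1 h.symm)
  have hUT' : ∀ w : G, U⁻¹ * w * U * w⁻¹ ∈ T := by
    intro w
    have := T.inv_mem (hUT (U⁻¹ * w))
    have e : (U * (U⁻¹ * w) * U⁻¹ * (U⁻¹ * w)⁻¹)⁻¹ = U⁻¹ * w * U * w⁻¹ := by group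
    rwa [e] at this
  have hmain := uc_main Tb hTbN htotb (π (U⁻¹ * V)) hτ1 (Subgroup.mem_map_of_mem π hτT) (by
      intro w
      obtain ⟨w, rfl⟩ := hπs w
      have h1 := (hπ1 _).2 (hτ w)
      rw [map_mul, map_mul, map_mul, map_inv, map_inv] at h1
      have h2 := mul_inv_eq_one.1 h1
      have h3 := mul_inv_eq_iff_eq_mul.1 h2
      rw [← h3, mul_assoc, mul_inv_cancel, mul_one]) (by
      intro K hKn hKT hKc hτK
      rw [eq_bot_iff]
      intro q hq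
      obtain ⟨x, rfl⟩ := hπs q
      rw [Subgroup.mem_bot, hπ1]
      have hxK : x ∈ K.comap π := hq
      refine hmax (K.comap π) ⟨hKn.comap π, ?_, ?_⟩ hτK hxK
      · intro y hy
        obtain ⟨t, ht, hty⟩ := hKT hy
        have h1 : π (t⁻¹ * y) = 1 := by rw [map_mul, map_inv, hty, inv_mul_cancel]
        have h2 := hJ.le ((hπ1 _).1 h1)
        have e : y = t * (t⁻¹ * y) := by group
        rw [e]; exact T.mul_mem ht h2
      · intro a ha b hb hbP hbaP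
        have haT : a ∈ T := by
          obtain ⟨t, ht, hty⟩ := hKT ha
          have h1 : π (t⁻¹ * a) = 1 := by rw [map_mul, map_inv, hty, inv_mul_cancel]
          have h2 := hJ.le ((hπ1 _).1 h1)
          have e : a = t * (t⁻¹ * a) := by group
          rw [e]; exact T.mul_mem ht h2
        exact hKc (π a) ha (π b) (Subgroup.mem_map_of_mem π hb) (hpos b hb hbP)
          (hposle b a (T.mul_mem (T.inv_mem hb) haT) hbaP)) (π U) (by
      intro w
      obtain ⟨w, rfl⟩ := hπs w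
      exact ⟨U⁻¹ * w * U * w⁻¹, hUT' w, by simp⟩) (by
      intro w
      obtain ⟨w, rfl⟩ := hπs w
      have e : (π U)⁻¹ * π w * π U * (π w)⁻¹ = π (U⁻¹ * w * U * w⁻¹) := by simp
      rw [e]
      refine hposle _ _ (T.mul_mem (T.inv_mem (hUT' w)) hτT) ?_
      have e2 : (U⁻¹ * w * U * w⁻¹)⁻¹ * (U⁻¹ * V) = (w * U⁻¹ * w⁻¹) * V := by group
      rw [e2]
      exact hP.mul _ (hP.conj _ hUP w) _ hVP)
  intro w
  have h1 := hmain (π (U * w))
  have e : (π U)⁻¹ * π (U * w) * π U * (π (U * w))⁻¹ = π (U⁻¹ * (U * w) * U * (U * w)⁻¹) := by simp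
  rw [e, hπ1] at h1
  have h2 := J.inv_mem h1
  have e2 : (U⁻¹ * (U * w) * U * (U * w)⁻¹)⁻¹ = U * w * U⁻¹ * w⁻¹ := by group
  rwa [e2] at h2

end H294OStar
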