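import Pool.Agent.Helper294.OSt.Core
set_option autoImplicit false
set_option linter.all false

namespace H294OStar


theorem CN.comparable {G : Type} [Group G] {T : Subgroup G} {P : Set G}
    (htot : ∀ y ∈ T, y = 1 ∨ y ∈ P ∨ y⁻¹ ∈ P) {K1 K2 : Subgroup G} (h1 : CN T P K1)
    (h2 : CN T P K2) : K1 ≤ K2 ∨ K2 ≤ K1 := by
  by_contra hc
  push Not at hc
  obtain ⟨hc1, hc2⟩ := hc
  apply hc2
  obtain ⟨a0, ha0, ha0'⟩ := SetLike.not_le_iff_exists.mp hc1
  obtain ⟨a, ha, ha', haP⟩ : ∃ a, a ∈ K1 ∧ a ∉ K2 ∧ a ∈ P := by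
    rcases htot a0 (h1.le ha0) with h | h | h
    · exact absurd (h ▸ K2.one_mem) ha0'
    · exact ⟨a0, ha0, ha0', h⟩
    · exact ⟨a0⁻¹, K1.inv_mem ha0, fun hh => ha0' (by simpa using K2.inv_mem hh), h⟩
  have key : ∀ b ∈ K2, b ∈ P → b ∈ K1 := by
    intro b hb hbP
    have hT : b⁻¹ * a ∈ T := T.mul_mem (T.inv_mem (h2.le hb)) (h1.le ha)
    rcases htot _ hT with h | h | h
    · have : b = a := by
        rw [inv_mul_eq_one] at h; exact h
      rw [this]; exact ha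
    · exact h1.conv a ha b (h2.le hb) hbP h
    · exfalso
      apply ha'
      apply h2.conv b hb a (h1.le ha) haP
      rwa [mul_inv_rev, inv_inv] at h
  intro b hb
  rcases htot b (h2.le hb) with h | h | h
  · rw [h]; exact K1.one_mem
  · exact key b hb h
  · have := key b⁻¹ (K2.inv_mem hb) h
    simpa using K1.inv_mem this

theorem exists_J {G : Type} [Group G] (T : Subgroup G) (P : Set G) (τ : G) (hT : T.Normal) (hP : Cone P)
    (htot : ∀ y ∈ T, y = 1 ∨ y ∈ P ∨ y⁻¹ ∈ P) (hτT : τ ∈ T) (hτP : τ ∈ P) : ∃ J : Subgroup G, Lev T P τ J := by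
  set C : Set (Subgroup G) := {K | CN T P K ∧ τ ∉ K} with hC
  have hbot : (⊥ : Subgroup G) ∈ C := by
    refine ⟨⟨inferInstance, bot_le, ?_⟩, ?_⟩
    · intro a ha b _ hbP hba
      exfalso
      rw [Subgroup.mem_bot] at ha
      subst ha
      rw [mul_one] at hba
      have := hP.mul b hbP _ hba
      rw [mul_inv_cancel] at this
      exact hP.one this
    · intro h
      rw [Subgroup.mem_bot] at h
      exact hP.one (h ▸ hτP)
  have hne : C.Nonempty := ⟨⊥, hbot⟩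
  have hdir : DirectedOn (· ≤ ·) C := by
    intro K1 h1 K2 h2
    rcases CN.comparable htot h1.1 h2.1 with h | h
    · exact ⟨K2, h2, h, le_rfl⟩
    · exact ⟨K1, h1, le_rfl, h⟩
  have hmem : ∀ x, x ∈ sSup C ↔ ∃ K ∈ C, x ∈ K := fun x =>
    Subgroup.mem_sSup_of_directedOn hne hdir
  refine ⟨sSup C, hT, hP, htot, hτT, hτP, ⟨⟨?_⟩, ?_, ?_⟩, ?_, ?_⟩
  · intro x hx g
    obtain ⟨K, hK, hxK⟩ := (hmem x).mp hx
    exact (hmem _).mpr ⟨K, hK, hK.1.nor.conj_mem x hxK g⟩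
  · intro x hx
    obtain ⟨K, hK, hxK⟩ := (hmem x).mp hx
    exact hK.1.le hxK
  · intro a ha b hb hbP hba
    obtain ⟨K, hK, haK⟩ := (hmem a).mp ha
    exact (hmem b).mpr ⟨K, hK, hK.1.conv a haK b hb hbP hba⟩
  · intro h
    obtain ⟨K, hK, hτK⟩ := (hmem τ).mp h
    exact hK.2 hτK
  · intro K hK hτK
    exact le_sSup ⟨hK, hτK⟩

end H294OStar
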