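import Pool.Agent.Helper294.OSt.Core
set_option autoImplicit false
set_option linter.all false

namespace H294OStar


theorem exists_T {G : Type} [Group G] (A : Subgroup G) (hA : A.Normal) (hnil : Group.IsNilpotent (G ⧸ A))
    (P : Set G) (hP : Cone P) (hAt : ∀ a ∈ A, a = 1 ∨ a ∈ P ∨ a⁻¹ ∈ P) (hnt : ¬ Total P) :
    ∃ (T : Subgroup G) (g : G), T.Normal ∧ A ≤ T ∧ (∀ a ∈ T, a = 1 ∨ a ∈ P ∨ a⁻¹ ∈ P) ∧ Cen T g ∧
      g ≠ 1 ∧ g ∉ P ∧ g⁻¹ ∉ P := by
  classical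
  let S : Set (Subgroup G) := {T | T.Normal ∧ A ≤ T ∧ ∀ a ∈ T, a = 1 ∨ a ∈ P ∨ a⁻¹ ∈ P}
  obtain ⟨T, hAT, hTmax⟩ := zorn_le_nonempty₀ S (by
    intro c hc hchain T₀ hT₀
    have hmem : ∀ x : G, x ∈ sSup c ↔ ∃ T ∈ c, x ∈ T :=
      fun x => Subgroup.mem_sSup_of_directedOn ⟨T₀, hT₀⟩ hchain.directedOn
    refine ⟨sSup c, ⟨⟨fun n hn g => ?_⟩, ?_, ?_⟩, fun z hz => le_sSup hz⟩
    · obtain ⟨T, hT, hn⟩ := (hmem n).1 hn
      exact (hmem _).2 ⟨T, hT, (hc hT).1.conj_mem n hn g⟩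
    · exact (hc hT₀).2.1.trans (le_sSup hT₀)
    · intro a ha
      obtain ⟨T, hT, ha⟩ := (hmem a).1 ha
      exact (hc hT).2.2 a ha) A ⟨hA, le_refl A, hAt⟩
  obtain ⟨hTN, _, hTt⟩ := hTmax.prop
  have hTtop : T ≠ ⊤ := by
    rintro rfl
    apply hnt
    intro g hg
    exact (hTt g (Subgroup.mem_top g)).resolve_left hg
  haveI := hTN
  haveI := hA
  haveI := hnil
  haveI hnilT : Group.IsNilpotent (G ⧸ T) :=
    Group.nilpotent_of_surjective (QuotientGroup.map A T (MonoidHom.id G) (by simpa using hAT)) (by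
      intro x
      induction x using QuotientGroup.induction_on with
      | H x => exact ⟨(x : G ⧸ A), rfl⟩)
  haveI hnon : Nontrivial (G ⧸ T) := by
    by_contra hcon
    rw [not_nontrivial_iff_subsingleton] at hcon
    apply hTtop
    rw [eq_top_iff]
    intro x _
    rw [← QuotientGroup.eq_one_iff]
    exact Subsingleton.elim _ _
  obtain ⟨z, hz, hz1⟩ := (Subgroup.ne_bot_iff_exists_ne_one.1
    (Group.IsNilpotent.center_ne_bot (G := G ⧸ T)) |>.imp fun z hz => ⟨z.2, fun h => hz (Subtype.ext h)⟩ : ∃ z : Subgroup.center (G ⧸ T), (z : G ⧸ T) ∈ Subgroup.center (G ⧸ T) ∧ (z : G ⧸ T) ≠ 1)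
  have hzp : ∀ x ∈ Subgroup.zpowers (z : G ⧸ T), x ∈ Subgroup.center (G ⧸ T) := by
    intro x hx
    exact (Subgroup.zpowers_le.2 hz) hx
  let T' : Subgroup G := (Subgroup.zpowers (z : G ⧸ T)).comap (QuotientGroup.mk' T)
  have hT'c : ∀ g ∈ T', (g : G ⧸ T) ∈ Subgroup.center (G ⧸ T) := fun g hg => hzp _ hg
  have hT'N : T'.Normal := by
    refine ⟨fun n hn g => ?_⟩
    have h1 := hT'c n hn
    change QuotientGroup.mk' T (g * n * g⁻¹) ∈ Subgroup.zpowers (z : G ⧸ T)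
    have h2 : QuotientGroup.mk' T (g * n * g⁻¹) = QuotientGroup.mk' T n := by
      rw [map_mul, map_mul, map_inv]
      have h3 := Subgroup.mem_center_iff.1 h1 (QuotientGroup.mk' T g)
      change _ * QuotientGroup.mk' T n = QuotientGroup.mk' T n * _ at h3
      rw [h3, mul_inv_cancel_right]
    rw [h2]
    exact hn
  have hTT' : T ≤ T' := by
    intro x hx
    change QuotientGroup.mk' T x ∈ Subgroup.zpowers (z : G ⧸ T)
    have : QuotientGroup.mk' T x = 1 := (QuotientGroup.eq_one_iff x).2 hx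
    rw [this]
    exact one_mem _
  obtain ⟨y, hy⟩ := QuotientGroup.mk_surjective (z : G ⧸ T)
  have hyT : y ∉ T := by
    intro h
    apply hz1
    rw [← hy]
    exact (QuotientGroup.eq_one_iff y).2 h
  have hyT' : y ∈ T' := by
    change QuotientGroup.mk' T y ∈ Subgroup.zpowers (z : G ⧸ T)
    have : QuotientGroup.mk' T y = (z : G ⧸ T) := hy
    rw [this]
    exact Subgroup.mem_zpowers _
  have hcon : ¬ ∀ a ∈ T', a = 1 ∨ a ∈ P ∨ a⁻¹ ∈ P := by
    intro hall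
    have h1 : T' ≤ T := hTmax.le_of_ge ⟨hT'N, hAT.trans hTT', hall⟩ hTT'
    exact hyT (h1 hyT')
  push Not at hcon
  obtain ⟨g, hg, hg1, hgP, hgP'⟩ := hcon
  refine ⟨T, g, hTN, hAT, hTt, fun w => ?_, hg1, hgP, hgP'⟩
  have h1 := hT'c g hg
  rw [← QuotientGroup.eq_one_iff]
  have h3 := Subgroup.mem_center_iff.1 h1 (w : G ⧸ T)
  rw [QuotientGroup.mk_mul, QuotientGroup.mk_mul, QuotientGroup.mk_mul, QuotientGroup.mk_inv,
    QuotientGroup.mk_inv, ← h3, mul_inv_cancel_right, mul_inv_cancel]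

end H294OStar
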