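import Pool.Agent.Helper294.OSt.Core
set_option autoImplicit false
set_option linter.all false

namespace H294OStar


theorem exists_max_cone {G : Type} [Group G] (P0 : Set G) (h0 : Cone P0) :
    ∃ P : Set G, P0 ⊆ P ∧ Cone P ∧ ∀ P' : Set G, Cone P' → P ⊆ P' → P' ⊆ P := by
  obtain ⟨P, hP0, hmax⟩ := zorn_subset_nonempty {P : Set G | Cone P} (by
    intro c hc hchain hne
    refine ⟨⋃₀ c, ?_, fun s hs => Set.subset_sUnion_of_mem hs⟩
    refine ⟨?_, ?_, ?_⟩
    · rintro a ⟨s, hs, has⟩ b ⟨t, ht, hbt⟩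
      rcases hchain.total hs ht with hst | hts
      · exact ⟨t, ht, (hc ht).mul a (hst has) b hbt⟩
      · exact ⟨s, hs, (hc hs).mul a has b (hts hbt)⟩
    · rintro a ⟨s, hs, has⟩ g
      exact ⟨s, hs, (hc hs).conj a has g⟩
    · rintro ⟨s, hs, h1⟩
      exact (hc hs).one h1) P0 h0
  exact ⟨P, hP0, hmax.prop, fun P' hP' hle => hmax.le_of_ge hP' hle⟩

end H294OStar
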