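import Pool.Agent.Helper294.OSt.Core
set_option autoImplicit false
set_option linter.all false

namespace H294OStar


theorem fg_mod_aux {G : Type} [Group G] (U : G) (y : G) (hy : y ∈ Subgroup.normalClosure {U}) :
    ∃ l : List G, y ∈ Subgroup.closure {y | ∃ w ∈ l, y = w * U * w⁻¹} := by
  unfold Subgroup.normalClosure at hy
  induction hy using Subgroup.closure_induction with
  | mem x hx =>
    rw [Group.mem_conjugatesOfSet_iff] at hx
    obtain ⟨a, ha, hc⟩ := hx
    rw [Set.mem_singleton_iff] at ha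
    subst ha
    rw [isConj_iff] at hc
    obtain ⟨c, hc⟩ := hc
    exact ⟨[c], Subgroup.subset_closure ⟨c, by simp, hc.symm⟩⟩
  | one => exact ⟨[], Subgroup.one_mem _⟩
  | mul x y _ _ hx hy =>
    obtain ⟨l1, h1⟩ := hx
    obtain ⟨l2, h2⟩ := hy
    refine ⟨l1 ++ l2, Subgroup.mul_mem _ ?_ ?_⟩
    · refine Subgroup.closure_mono ?_ h1
      rintro z ⟨w, hw, rfl⟩
      exact ⟨w, by simp [hw], rfl⟩
    · refine Subgroup.closure_mono ?_ h2
      rintro z ⟨w, hw, rfl⟩
      exact ⟨w, by simp [hw], rfl⟩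
  | inv x _ hx =>
    obtain ⟨l, hl⟩ := hx
    exact ⟨l, Subgroup.inv_mem _ hl⟩

theorem fg_mod_aux2 {G : Type} [Group G] (A : Subgroup G) [hA : A.Normal] (U : G) (T : Finset (G ⧸ A)) 
    (hT : ∀ t ∈ T, t ∈ (Subgroup.normalClosure {U}).map (QuotientGroup.mk' A)) :
    ∃ l : List G, ∀ t ∈ T, t ∈ (Subgroup.closure {y | ∃ w ∈ l, y = w * U * w⁻¹}).map (QuotientGroup.mk' A) := by
  classical
  induction T using Finset.induction_on with
  | empty => exact ⟨[], by simp⟩
  | insert a s ha ih =>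
    obtain ⟨l1, h1⟩ := ih (fun t ht => hT t (Finset.mem_insert_of_mem ht))
    obtain ⟨y, hy, hya⟩ := Subgroup.mem_map.mp (hT a (Finset.mem_insert_self _ _))
    obtain ⟨l2, h2⟩ := fg_mod_aux U y hy
    refine ⟨l1 ++ l2, ?_⟩
    intro t ht
    rw [Finset.mem_insert] at ht
    rcases ht with rfl | ht
    · refine Subgroup.mem_map.mpr ⟨y, ?_, hya⟩
      refine Subgroup.closure_mono ?_ h2
      rintro z ⟨w, hw, rfl⟩
      exact ⟨w, by simp [hw], rfl⟩
    · refine Subgroup.map_mono ?_ (h1 t ht)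
      refine Subgroup.closure_mono ?_
      rintro z ⟨w, hw, rfl⟩
      exact ⟨w, by simp [hw], rfl⟩

/-- finite generation of the normal closure modulo `A` -/
theorem fg_mod {G : Type} [Group G] (A : Subgroup G) [hA : A.Normal] (hsub : ∀ H : Subgroup (G ⧸ A), H.FG)
    (U : G) : ∃ l : List G, Subgroup.normalClosure {U} ≤ Subgroup.closure {y | ∃ w ∈ l, y = w * U * w⁻¹} ⊔ A := by
  obtain ⟨T, hT⟩ := hsub ((Subgroup.normalClosure {U}).map (QuotientGroup.mk' A))
  obtain ⟨l, hl⟩ := fg_mod_aux2 A U T (fun t ht => by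
    rw [← hT]
    exact Subgroup.subset_closure ht)
  refine ⟨l, ?_⟩
  intro y hy
  have h1 : QuotientGroup.mk' A y ∈ (Subgroup.closure {y | ∃ w ∈ l, y = w * U * w⁻¹}).map (QuotientGroup.mk' A) := by
    have h2 : QuotientGroup.mk' A y ∈ Subgroup.closure (T : Set (G ⧸ A)) := by
      rw [hT]
      exact Subgroup.mem_map_of_mem _ hy
    have h3 : Subgroup.closure (T : Set (G ⧸ A)) ≤ (Subgroup.closure {y | ∃ w ∈ l, y = w * U * w⁻¹}).map (QuotientGroup.mk' A) := by
      rw [Subgroup.closure_le]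
      intro t ht
      exact hl t ht
    exact h3 h2
  obtain ⟨z, hz, hzy⟩ := Subgroup.mem_map.mp h1
  have h4 : z⁻¹ * y ∈ A := by
    exact QuotientGroup.eq.mp hzy
  have h5 : y = z * (z⁻¹ * y) := by group
  rw [h5]
  exact Subgroup.mul_mem_sup hz h4

end H294OStar
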