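import Pool.Agent.Helper294.OSt.Core
set_option autoImplicit false
set_option linter.all false

namespace H294OStar



lemma aux_cen {G : Type} [Group G] (T : Subgroup G) (hT : T.Normal) (g : G) (hg : Cen T g) :
    ∀ h ∈ Subgroup.normalClosure ({g} : Set G), Cen T h := by
  haveI := hT
  have hkey : ∀ h : G, Cen T h ↔ h ∈ (Subgroup.center (G ⧸ T)).comap (QuotientGroup.mk' T) := by
    intro h
    rw [Subgroup.mem_comap, Subgroup.mem_center_iff]
    constructor
    · intro hc w
      obtain ⟨w, rfl⟩ := QuotientGroup.mk'_surjective T w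
      rw [← map_mul, ← map_mul]
      have := hc w
      symm
      rw [← mul_inv_eq_one, ← map_inv, ← map_mul]
      show ((h * w * (w * h)⁻¹ : G) : G ⧸ T) = 1
      rw [QuotientGroup.eq_one_iff]
      simpa [mul_assoc] using this
    · intro hc w
      have := hc (QuotientGroup.mk' T w)
      rw [← map_mul, ← map_mul] at this
      have h2 := this.symm
      rw [← mul_inv_eq_one, ← map_inv, ← map_mul] at h2
      change ((h * w * (w * h)⁻¹ : G) : G ⧸ T) = 1 at h2
      rw [QuotientGroup.eq_one_iff] at h2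
      simpa [mul_assoc] using h2
  intro h hh
  rw [hkey]
  have hle : Subgroup.normalClosure ({g} : Set G) ≤
      (Subgroup.center (G ⧸ T)).comap (QuotientGroup.mk' T) := by
    apply Subgroup.normalClosure_le_normal
    intro x hx
    rw [Set.mem_singleton_iff] at hx
    subst hx
    exact (hkey _).1 hg
  exact hle hh

lemma LS_mono {G : Type} [Group G] (N M : Subgroup G) (h : N ≤ M) (m : ℕ) : LS N m ≤ LS M m := by
  induction m with
  | zero => exact h
  | succ k ih => exact Subgroup.commutator_mono ih le_rfl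

lemma final_LS_le {G : Type} [Group G] (N : Subgroup G) (hN : N.Normal) (m : ℕ) : LS N m ≤ N := by
  haveI := hN
  induction m with
  | zero => exact le_rfl
  | succ k ih =>
    exact le_trans (Subgroup.commutator_mono ih le_rfl) (Subgroup.commutator_le_left N ⊤)

lemma final_NS_mem {G : Type} [Group G] (g U : G) (hU : NS g U) : U ∈ Subgroup.normalClosure ({g} : Set G) := by
  induction hU with
  | conj x =>
    exact Subgroup.normalClosure_normal.conj_mem g
      (Subgroup.subset_normalClosure (Set.mem_singleton g)) x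
  | mul a b _ _ ha hb => exact mul_mem ha hb

/-- the elements of `N` commuting with `N` modulo `J` -/
def CC {G : Type} [Group G] (N J : Subgroup G) (hN : N.Normal) (hJ : J.Normal) : Subgroup G where
  carrier := {h | h ∈ N ∧ ∀ y ∈ N, h * y * h⁻¹ * y⁻¹ ∈ J}
  one_mem' := ⟨one_mem _, by intro y hy; simp [one_mem]⟩
  mul_mem' := by
    rintro a b ⟨ha, ha'⟩ ⟨hb, hb'⟩
    refine ⟨mul_mem ha hb, ?_⟩
    intro y hy
    have h1 : a * (b * y * b⁻¹ * y⁻¹) * a⁻¹ ∈ J := hJ.conj_mem _ (hb' y hy) a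
    have h2 := mul_mem h1 (ha' y hy)
    have h3 : a * (b * y * b⁻¹ * y⁻¹) * a⁻¹ * (a * y * a⁻¹ * y⁻¹) = a * b * y * (a * b)⁻¹ * y⁻¹ := by
      group
    rwa [h3] at h2
  inv_mem' := by
    rintro a ⟨ha, ha'⟩
    refine ⟨inv_mem ha, ?_⟩
    intro y hy
    have h1 := hJ.conj_mem _ (inv_mem (ha' y hy)) a⁻¹
    have h3 : a⁻¹ * (a * y * a⁻¹ * y⁻¹)⁻¹ * a⁻¹⁻¹ = a⁻¹ * y * a⁻¹⁻¹ * y⁻¹ := by
      group
    rwa [h3] at h1

lemma CC_normal {G : Type} [Group G] (N J : Subgroup G) (hN : N.Normal) (hJ : J.Normal) :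
    (CC N J hN hJ).Normal := by
  constructor
  rintro h ⟨hh, hh'⟩ x
  refine ⟨hN.conj_mem _ hh x, ?_⟩
  intro y hy
  have h1 : x⁻¹ * y * x⁻¹⁻¹ ∈ N := hN.conj_mem _ hy x⁻¹
  have h2 := hJ.conj_mem _ (hh' _ h1) x
  have h3 : x * (h * (x⁻¹ * y * x⁻¹⁻¹) * h⁻¹ * (x⁻¹ * y * x⁻¹⁻¹)⁻¹) * x⁻¹ =
      x * h * x⁻¹ * y * (x * h * x⁻¹)⁻¹ * y⁻¹ := by group
  rwa [h3] at h2

theorem final {G : Type} [Group G] (A T : Subgroup G) (P : Set G) (τ : G) (J : Subgroup G) (hA : A.Normal)
    (hAT : A ≤ T) (hLev : Lev T P τ J) (hnil : ∃ m, LS (⊤ : Subgroup G) m ≤ A) (g U : G) (hU : NS g U)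
    (hgT : Cen T g) (hUJ : Cen J U) (hAN : ⁅A, Subgroup.normalClosure {g}⁆ ≤ J)
    (hR : ∀ (N C : Subgroup G), N.Normal → C.Normal → C ≤ N → (∃ m, LS N m ≤ C) →
      (∀ h ∈ N, ∀ n : ℕ, 0 < n → h ^ n ∈ C → h ∈ C) → ∀ g U : G, g ∈ N → NS g U → U ∈ C → g ∈ C) :
    ⁅Subgroup.normalClosure {g}, Subgroup.normalClosure {g}⁆ ≤ J := by
  haveI hTn := hLev.hT
  have hJn := hLev.hJ.nor
  have hNn : (Subgroup.normalClosure ({g} : Set G)).Normal := Subgroup.normalClosure_normal
  have hgN : g ∈ Subgroup.normalClosure ({g} : Set G) :=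
    Subgroup.subset_normalClosure (Set.mem_singleton g)
  have hNT := aux_cen T hLev.hT g hgT
  have key : g ∈ CC (Subgroup.normalClosure ({g} : Set G)) J hNn hJn := by
    apply hR (Subgroup.normalClosure ({g} : Set G)) _ hNn (CC_normal _ _ hNn hJn) _ _ _ g U hgN hU
    · exact ⟨final_NS_mem g U hU, fun y _ => hUJ y⟩
    · intro x hx
      exact hx.1
    · obtain ⟨m, hm⟩ := hnil
      refine ⟨m, ?_⟩
      intro a ha
      have h1 := final_LS_le _ hNn m ha
      have h2 : a ∈ A := hm (LS_mono _ _ le_top m ha)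
      refine ⟨h1, ?_⟩
      intro y hy
      exact hAN (Subgroup.commutator_mem_commutator h2 hy)
    · intro h hh n hn hC
      refine ⟨hh, ?_⟩
      intro y hy
      set u := h * y * h⁻¹ * y⁻¹ with hu
      have huT : u ∈ T := hNT h hh y
      have hstep : ∀ k : ℕ, h ^ (k + 1) * y * (h ^ (k + 1))⁻¹ * y⁻¹ =
          h * (h ^ k * y * (h ^ k)⁻¹ * y⁻¹) * h⁻¹ * u := by
        intro k
        rw [hu, pow_succ']
        group
      have hn1 := hC.2 y hy
      obtain ⟨m, rfl⟩ : ∃ m, n = m + 1 := ⟨n - 1, by omega⟩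
      rcases hLev.htot u huT with h1 | h1 | h1
      · rw [h1]; exact one_mem _
      · have hpos : ∀ k : ℕ, h ^ (k + 1) * y * (h ^ (k + 1))⁻¹ * y⁻¹ ∈ P := by
          intro k
          induction k with
          | zero => simpa [hu] using h1
          | succ k ih =>
            rw [hstep (k + 1)]
            exact hLev.hP.mul _ (hLev.hP.conj _ ih h) _ h1
        cases m with
        | zero => simpa [hu] using hn1
        | succ k =>
          apply hLev.hJ.conv _ hn1 u huT h1
          rw [hstep (k + 1)]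
          have h5 := hLev.hP.conj _ (hLev.hP.conj _ (hpos k) h) u⁻¹
          have h6 : u⁻¹ * (h * (h ^ (k + 1) * y * (h ^ (k + 1))⁻¹ * y⁻¹) * h⁻¹) * u⁻¹⁻¹ =
            u⁻¹ * (h * (h ^ (k + 1) * y * (h ^ (k + 1))⁻¹ * y⁻¹) * h⁻¹ * u) := by group
          rwa [h6] at h5
      · have hpos : ∀ k : ℕ, (h ^ (k + 1) * y * (h ^ (k + 1))⁻¹ * y⁻¹)⁻¹ ∈ P := by
          intro k
          induction k with
          | zero => simpa [hu] using h1
          | succ k ih =>
            rw [hstep (k + 1)]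
            have h5 := hLev.hP.mul _ h1 _ (hLev.hP.conj _ ih h)
            have h6 : u⁻¹ * (h * (h ^ (k + 1) * y * (h ^ (k + 1))⁻¹ * y⁻¹)⁻¹ * h⁻¹) =
              (h * (h ^ (k + 1) * y * (h ^ (k + 1))⁻¹ * y⁻¹) * h⁻¹ * u)⁻¹ := by group
            rwa [h6] at h5
        cases m with
        | zero => simpa [hu] using hn1
        | succ k =>
          have h7 : u⁻¹ ∈ J := by
            apply hLev.hJ.conv _ (inv_mem hn1) u⁻¹ (inv_mem huT) h1
            rw [hstep (k + 1)]
            have h5 := hLev.hP.conj _ (hpos k) h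
            have h6 : (h * (h ^ (k + 1) * y * (h ^ (k + 1))⁻¹ * y⁻¹)⁻¹ * h⁻¹) =
              u⁻¹⁻¹ * (h * (h ^ (k + 1) * y * (h ^ (k + 1))⁻¹ * y⁻¹) * h⁻¹ * u)⁻¹ := by group
            rwa [h6] at h5
          simpa using inv_mem h7
  have hle : Subgroup.normalClosure ({g} : Set G) ≤ CC (Subgroup.normalClosure ({g} : Set G)) J hNn hJn := by
    haveI := CC_normal (Subgroup.normalClosure ({g} : Set G)) J hNn hJn
    apply Subgroup.normalClosure_le_normal
    intro x hx
    rw [Set.mem_singleton_iff] at hx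
    subst hx
    exact key
  rw [Subgroup.commutator_le]
  intro a ha b hb
  exact (hle ha).2 b hb

end H294OStar
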