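import Pool.Agent.Helper294.OSt.Core
set_option autoImplicit false
set_option linter.all false

namespace H294OStar


theorem NS.local {G : Type} [Group G] {g s : G} (h : NS g s) :
    ∃ F : Finset G, ∀ H : Subgroup G, (F : Set G) ⊆ H → ∀ hg : g ∈ H,
      ∃ hs : s ∈ H, NS (⟨g, hg⟩ : H) ⟨s, hs⟩ := by
  classical
  induction h with
  | conj x =>
    refine ⟨{x}, fun H hF hg => ?_⟩
    have hx : x ∈ H := hF (by simp)
    exact ⟨H.mul_mem (H.mul_mem hx hg) (H.inv_mem hx), NS.conj (⟨x, hx⟩ : H)⟩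
  | mul a b _ _ iha ihb =>
    obtain ⟨F1, h1⟩ := iha
    obtain ⟨F2, h2⟩ := ihb
    refine ⟨F1 ∪ F2, fun H hF hg => ?_⟩
    rw [Finset.coe_union] at hF
    obtain ⟨ha, ha'⟩ := h1 H (Set.subset_union_left.trans hF) hg
    obtain ⟨hb, hb'⟩ := h2 H (Set.subset_union_right.trans hF) hg
    exact ⟨H.mul_mem ha hb, NS.mul _ _ ha' hb'⟩

theorem NS.mem {G : Type} [Group G] {g s : G} (h : NS g s) {P : Set G} (hP : Cone P)
    (hg : g ∈ P) : s ∈ P := by
  induction h with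
  | conj x => exact hP.conj g hg x
  | mul a b _ _ iha ihb => exact hP.mul a iha b ihb

theorem NS.inv_mem {G : Type} [Group G] {g s : G} (h : NS g s) {P : Set G} (hP : Cone P)
    (hg : g⁻¹ ∈ P) : s⁻¹ ∈ P := by
  induction h with
  | conj x =>
    have := hP.conj _ hg x
    rwa [show x * g⁻¹ * x⁻¹ = (x * g * x⁻¹)⁻¹ by group] at this
  | mul a b _ _ iha ihb =>
    rw [mul_inv_rev]
    exact hP.mul _ ihb _ iha

theorem localize {G : Type} [Group G]
    (hloc : ∀ H : Subgroup G, H.FG → ∀ P : Set H, Cone P → ∃ P' : Set H, P ⊆ P' ∧ Cone P' ∧ Total P')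
    (P : Set G) (hP : Cone P) (g : G) (s t : G) (hs : NS g s) (ht : NS g t) (hsP : s⁻¹ ∈ P) (htP : t ∈ P)
    (hg1 : g ≠ 1) : False := by
  classical
  obtain ⟨F1, h1⟩ := hs.local
  obtain ⟨F2, h2⟩ := ht.local
  set H : Subgroup G := Subgroup.closure ((insert g (F1 ∪ F2) : Finset G) : Set G) with hH
  have hFG : H.FG := ⟨_, rfl⟩
  have hsub : ((insert g (F1 ∪ F2) : Finset G) : Set G) ⊆ H := Subgroup.subset_closure
  have hg : g ∈ H := hsub (by simp)
  have hF1 : (F1 : Set G) ⊆ H := fun x hx => hsub (by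
    rw [Finset.mem_coe] at hx
    simp [hx])
  have hF2 : (F2 : Set G) ⊆ H := fun x hx => hsub (by
    rw [Finset.mem_coe] at hx
    simp [hx])
  obtain ⟨hsH, hs'⟩ := h1 H hF1 hg
  obtain ⟨htH, ht'⟩ := h2 H hF2 hg
  have hPH : Cone {h : H | (h : G) ∈ P} := by
    refine ⟨?_, ?_, ?_⟩
    · intro a ha b hb
      exact hP.mul _ ha _ hb
    · intro a ha x
      exact hP.conj _ ha _
    · exact hP.one
  obtain ⟨P', hsubP, hC, hT⟩ := hloc H hFG _ hPH
  have hgne : (⟨g, hg⟩ : H) ≠ 1 := fun h => hg1 (congrArg Subtype.val h)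
  rcases hT _ hgne with h | h
  · have a1 := hs'.mem hC h
    have a2 : (⟨s, hsH⟩ : H)⁻¹ ∈ P' := hsubP hsP
    have := hC.mul _ a1 _ a2
    rw [mul_inv_cancel] at this
    exact hC.one this
  · have a1 := ht'.inv_mem hC h
    have a2 : (⟨t, htH⟩ : H) ∈ P' := hsubP htP
    have := hC.mul _ a2 _ a1
    rw [mul_inv_cancel] at this
    exact hC.one this

end H294OStar
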