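import Pool.Agent.Helper294.OSt.Core
set_option autoImplicit false
set_option linter.all false

namespace H294OStar


theorem lsc_normal {G : Type} [Group G] (N : Subgroup G) (hN : N.Normal) (k : ℕ) : (LS N k).Normal := by
  induction k with
  | zero => exact hN
  | succ k ih => exact Subgroup.commutator_normal _ _

theorem lsc_le {G : Type} [Group G] (N : Subgroup G) (hN : N.Normal) (k : ℕ) : LS N (k + 1) ≤ LS N k := by
  haveI := lsc_normal N hN k
  exact Subgroup.commutator_le_left _ _

theorem lsc_anti {G : Type} [Group G] (N : Subgroup G) (hN : N.Normal) {k l : ℕ} (h : k ≤ l) :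
    LS N l ≤ LS N k := by
  induction h with
  | refl => exact le_rfl
  | step _ ih => exact (lsc_le N hN _).trans ih

/-- centralizer modulo `K` -/
def lscC {G : Type} [Group G] (K : Subgroup G) [K.Normal] : Subgroup G :=
  (Subgroup.center (G ⧸ K)).comap (QuotientGroup.mk' K)

theorem lscC_normal {G : Type} [Group G] (K : Subgroup G) [K.Normal] : (lscC K).Normal := by
  unfold lscC
  infer_instance

theorem lscC_mem {G : Type} [Group G] (K : Subgroup G) [K.Normal] (s : G) :
    s ∈ lscC K ↔ ∀ w : G, s * w * s⁻¹ * w⁻¹ ∈ K := by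
  unfold lscC
  rw [Subgroup.mem_comap, Subgroup.mem_center_iff]
  constructor
  · intro h w
    have h1 := h (QuotientGroup.mk' K w)
    rw [← map_mul, ← map_mul] at h1
    rw [← QuotientGroup.ker_mk' K, MonoidHom.mem_ker, map_mul, map_mul, map_mul,
      map_inv, map_inv, ← map_mul, ← h1, map_mul]
    group
  · intro h w
    obtain ⟨w, rfl⟩ := QuotientGroup.mk'_surjective K w
    have h1 := h w
    rw [← QuotientGroup.ker_mk' K, MonoidHom.mem_ker, map_mul, map_mul, map_mul,
      map_inv, map_inv] at h1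
    have h2 := mul_inv_eq_one.mp h1
    have h3 := mul_inv_eq_iff_eq_mul.mp h2
    exact h3.symm

theorem lscC_le {G : Type} [Group G] (K H : Subgroup G) [K.Normal] : ⁅H, (⊤ : Subgroup G)⁆ ≤ K ↔ H ≤ lscC K := by
  rw [Subgroup.commutator_le]
  constructor
  · intro h s hs
    rw [lscC_mem]
    exact fun w => h s hs w trivial
  · intro h s hs w _
    exact (lscC_mem K s).mp (h hs) w

theorem lsc_three {G : Type} [Group G] (X Y T K : Subgroup G) [K.Normal] (h1 : ⁅⁅Y, T⁆, X⁆ ≤ K)
    (h2 : ⁅⁅T, X⁆, Y⁆ ≤ K) : ⁅⁅X, Y⁆, T⁆ ≤ K := by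
  have key : ∀ H : Subgroup G, H ≤ K ↔ H.map (QuotientGroup.mk' K) = ⊥ := by
    intro H
    rw [Subgroup.map_eq_bot_iff, QuotientGroup.ker_mk']
  rw [key, Subgroup.map_commutator, Subgroup.map_commutator] at h1 h2 ⊢
  exact Subgroup.commutator_commutator_eq_bot_of_rotate h1 h2

/-- the auxiliary subgroups -/
def lscS {G : Type} [Group G] (N J : Subgroup G) (k : ℕ) : Subgroup G :=
  Subgroup.normalClosure ((J : Set G) ∪ {x | ∃ i j : ℕ, i + j = k ∧ x ∈ ⁅LS N i, LS N j⁆})

instance lscS_normal {G : Type} [Group G] (N J : Subgroup G) (k : ℕ) : (lscS N J k).Normal := by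
  unfold lscS
  infer_instance

theorem lscS_J {G : Type} [Group G] (N J : Subgroup G) (k : ℕ) : J ≤ lscS N J k := by
  intro x hx
  exact Subgroup.subset_normalClosure (Or.inl hx)

theorem lscS_c {G : Type} [Group G] (N J : Subgroup G) (i j : ℕ) : ⁅LS N i, LS N j⁆ ≤ lscS N J (i + j) := by
  intro x hx
  exact Subgroup.subset_normalClosure (Or.inr ⟨i, j, rfl, hx⟩)

theorem lscS_step {G : Type} [Group G] (N J : Subgroup G) (hJ : J.Normal) (k : ℕ) :
    ⁅lscS N J k, (⊤ : Subgroup G)⁆ ≤ lscS N J (k + 1) := by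
  rw [lscC_le]
  haveI := lscC_normal (lscS N J (k + 1))
  refine Subgroup.normalClosure_le_normal (N := lscC (lscS N J (k + 1))) ?_
  rintro x (hx | ⟨i, j, hij, hx⟩)
  · have : J ≤ lscC (lscS N J (k + 1)) := by
      rw [← lscC_le]
      exact (Subgroup.commutator_le_left _ _).trans (lscS_J N J (k + 1))
    exact this hx
  · have : ⁅LS N i, LS N j⁆ ≤ lscC (lscS N J (k + 1)) := by
      rw [← lscC_le]
      apply lsc_three
      · have h := lscS_c N J (j + 1) i
        have e : j + 1 + i = k + 1 := by omega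
        rw [e] at h
        exact h
      · have h := lscS_c N J (i + 1) j
        have e : i + 1 + j = k + 1 := by omega
        rw [e] at h
        rw [Subgroup.commutator_comm ⊤ (LS N i)]
        exact h
    exact this hx

theorem ls_comm {G : Type} [Group G] (A N J : Subgroup G) (hA : A.Normal) (hN : N.Normal) (hJ : J.Normal)
    (m : ℕ) (hm : LS N m ≤ A) (hAN : ⁅A, N⁆ ≤ J) : ∃ k, LS (⁅N, N⁆ ⊔ ⁅A, N⁆) k ≤ J := by
  have hk : ∀ k, LS (⁅N, N⁆ ⊔ ⁅A, N⁆) k ≤ lscS N J k := by
    intro k
    induction k with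
    | zero => exact sup_le (lscS_c N J 0 0) (hAN.trans (lscS_J N J 0))
    | succ k ih => exact (Subgroup.commutator_mono ih le_rfl).trans (lscS_step N J hJ k)
  refine ⟨2 * m, (hk (2 * m)).trans ?_⟩
  unfold lscS
  apply Subgroup.normalClosure_le_normal
  rintro x (hx | ⟨i, j, hij, hx⟩)
  · exact hx
  · have h0 : ∀ i, LS N i ≤ N := fun i => lsc_anti N hN (Nat.zero_le i)
    rcases Nat.lt_or_ge i m with hi | hi
    · have hj : m ≤ j := by omega
      rw [Subgroup.commutator_comm] at hx
      exact hAN (Subgroup.commutator_mono ((lsc_anti N hN hj).trans hm) (h0 i) hx)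
    · exact hAN (Subgroup.commutator_mono ((lsc_anti N hN hi).trans hm) (h0 j) hx)

end H294OStar
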