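import Pool.Agent.Helper294.OSt.Core
set_option autoImplicit false
set_option linter.all false

namespace H294OStar


theorem NS_inv {G : Type} [Group G] {g s : G} (h : NS g⁻¹ s) : NS g s⁻¹ := by
  induction h with
  | conj x =>
    have : (x * g⁻¹ * x⁻¹)⁻¹ = x * g * x⁻¹ := by group
    rw [this]; exact NS.conj x
  | mul a b _ _ iha ihb =>
    rw [mul_inv_rev]; exact NS.mul _ _ ihb iha

theorem NS_conj {G : Type} [Group G] {g s : G} (h : NS g s) (y : G) : NS g (y * s * y⁻¹) := by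
  induction h with
  | conj x =>
    have : y * (x * g * x⁻¹) * y⁻¹ = (y * x) * g * (y * x)⁻¹ := by group
    rw [this]; exact NS.conj _
  | mul a b _ _ iha ihb =>
    have : y * (a * b) * y⁻¹ = (y * a * y⁻¹) * (y * b * y⁻¹) := by group
    rw [this]; exact NS.mul _ _ iha ihb

theorem NS_mem {G : Type} [Group G] {T : Set G} (hT : Cone T) {g s : G} (hg : g ∈ T) (h : NS g s) :
    s ∈ T := by
  induction h with
  | conj x => exact hT.conj _ hg x
  | mul a b _ _ iha ihb => exact hT.mul _ iha _ ihb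

theorem NS_mem_inv {G : Type} [Group G] {T : Set G} (hT : Cone T) {g s : G} (hg : g⁻¹ ∈ T)
    (h : NS g s) : s⁻¹ ∈ T := by
  have h1 : NS (g⁻¹)⁻¹ s := by rwa [inv_inv]
  exact NS_mem hT hg (NS_inv h1)

theorem noncomp_aux {G : Type} [Group G] (P : Set G) (hP : Cone P)
    (hmax : ∀ P' : Set G, Cone P' → P ⊆ P' → P' ⊆ P)
    (T0 : Set G) (hT0 : Cone T0) (hT0t : Total T0) (g : G) (hg1 : g ≠ 1) (hg : g ∉ P) :
    ∃ s : G, NS g s ∧ s⁻¹ ∈ P := by
  by_contra hcon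
  push Not at hcon
  have hns1 : ¬ NS g 1 := by
    intro h
    rcases hT0t g hg1 with h1 | h1
    · exact hT0.one (NS_mem hT0 h1 h)
    · have := NS_mem_inv hT0 h1 h
      rw [inv_one] at this
      exact hT0.one this
  set Q : Set G := {x | x ∈ P ∨ NS g x ∨ ∃ p ∈ P, ∃ s, NS g s ∧ x = p * s} with hQ
  have hQc : Cone Q := by
    refine ⟨?_, ?_, ?_⟩
    · rintro a (ha | ha | ⟨p, hp, s, hs, rfl⟩) b (hb | hb | ⟨p', hp', s', hs', rfl⟩)
      · exact Or.inl (hP.mul _ ha _ hb)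
      · exact Or.inr (Or.inr ⟨a, ha, b, hb, rfl⟩)
      · exact Or.inr (Or.inr ⟨a * p', hP.mul _ ha _ hp', s', hs', by group⟩)
      · exact Or.inr (Or.inr ⟨a * b * a⁻¹, hP.conj _ hb a, a, ha, by group⟩)
      · exact Or.inr (Or.inl (NS.mul _ _ ha hb))
      · exact Or.inr (Or.inr ⟨a * p' * a⁻¹, hP.conj _ hp' a, a * s', NS.mul _ _ ha hs', by group⟩)
      · exact Or.inr (Or.inr ⟨p * (s * b * s⁻¹), hP.mul _ hp _ (hP.conj _ hb s), s, hs, by group⟩)
      · exact Or.inr (Or.inr ⟨p, hp, s * b, NS.mul _ _ hs hb, by group⟩)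
      · exact Or.inr (Or.inr ⟨p * (s * p' * s⁻¹), hP.mul _ hp _ (hP.conj _ hp' s), s * s',
          NS.mul _ _ hs hs', by group⟩)
    · rintro a (ha | ha | ⟨p, hp, s, hs, rfl⟩) y
      · exact Or.inl (hP.conj _ ha y)
      · exact Or.inr (Or.inl (NS_conj ha y))
      · exact Or.inr (Or.inr ⟨y * p * y⁻¹, hP.conj _ hp y, y * s * y⁻¹, NS_conj hs y, by group⟩)
    · rintro (h | h | ⟨p, hp, s, hs, h⟩)
      · exact hP.one h
      · exact hns1 h
      · apply hcon s hs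
        have : s⁻¹ = p := (eq_inv_of_mul_eq_one_left h.symm).symm
        rw [this]; exact hp
  have hPQ : P ⊆ Q := fun x hx => Or.inl hx
  have hgQ : g ∈ Q := Or.inr (Or.inl (by
    have := NS.conj (g := g) 1
    simpa using this))
  exact hg (hmax Q hQc hPQ hgQ)

theorem noncomp {G : Type} [Group G] (P : Set G) (hP : Cone P) (hmax : ∀ P' : Set G, Cone P' → P ⊆ P' → P' ⊆ P)
    (T0 : Set G) (hT0 : Cone T0) (hT0t : Total T0) (g : G) (hg1 : g ≠ 1) (hg : g ∉ P) (hg' : g⁻¹ ∉ P) :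
    ∃ s t : G, NS g s ∧ NS g t ∧ s⁻¹ ∈ P ∧ t ∈ P := by
  obtain ⟨s, hs, hs'⟩ := noncomp_aux P hP hmax T0 hT0 hT0t g hg1 hg
  obtain ⟨t, ht, ht'⟩ := noncomp_aux P hP hmax T0 hT0 hT0t g⁻¹ (by simpa using hg1) hg'
  exact ⟨s, t⁻¹, hs, NS_inv ht, hs', ht'⟩

end H294OStar
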