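import Pool.Agent.Helper294.OSt.Core
set_option autoImplicit false
set_option linter.all false

namespace H294OStar


theorem ore_abs {G : Type} [Group G] (A K : Subgroup G) [A.Normal] [hKn : K.Normal]
    {M : Type} [AddCommMonoid M] (q : G → M)
    (hq : ∀ a ∈ K, ∀ b ∈ K, q (a * b) = q a + q b)
    (Ψ : (G ⧸ A) →* AddMonoid.End M)
    (hΨ : ∀ w : G, ∀ x ∈ K, Ψ (w : G ⧸ A) (q x) = q (w * x * w⁻¹))
    (hOre : ∀ f g : MonoidAlgebra ℕ (G ⧸ A), f ≠ 0 → g ≠ 0 →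
      ∃ s t : MonoidAlgebra ℕ (G ⧸ A), s ≠ 0 ∧ t ≠ 0 ∧ s * f = t * g)
    (g : G) (hg : g ∈ K) (s t : G) (hs : NS g s) (ht : NS g t) :
    ∃ U V : G, NS s U ∧ NS t V ∧ q U = q V := by
  classical
  let Φ := MonoidAlgebra.lift ℕ (AddMonoid.End M) (G ⧸ A) Ψ
  have Φof : ∀ w : G, Φ (MonoidAlgebra.of ℕ (G ⧸ A) (w : G ⧸ A)) = Ψ (w : G ⧸ A) := fun w => by
    simp only [Φ]
    exact MonoidAlgebra.lift_of Ψ _
  have addne : ∀ a b : MonoidAlgebra ℕ (G ⧸ A), a ≠ 0 → a + b ≠ 0 := by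
    intro a b ha hab
    apply ha
    have h2 : a.coeff + b.coeff = 0 := by
      rw [← MonoidAlgebra.coeff_add, hab, MonoidAlgebra.coeff_zero]
    rw [← MonoidAlgebra.coeff_eq_zero]
    ext w
    have := DFunLike.congr_fun h2 w
    simp only [Finsupp.add_apply, Finsupp.zero_apply] at this
    simp only [Finsupp.zero_apply]
    omega
  have i1 : ∀ x, NS g x → x ∈ K ∧ ∃ f : MonoidAlgebra ℕ (G ⧸ A), f ≠ 0 ∧ q x = Φ f (q g) := by
    intro x hx
    induction hx with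
    | conj w =>
      refine ⟨hKn.conj_mem g hg w, MonoidAlgebra.of ℕ (G ⧸ A) (w : G ⧸ A), ?_, ?_⟩
      · rw [MonoidAlgebra.of_apply]
        intro h
        have h2 := congrArg (fun z : MonoidAlgebra ℕ (G ⧸ A) => z.coeff (w : G ⧸ A)) h
        simp at h2
      · rw [Φof, hΨ w g hg]
    | mul a b _ _ iha ihb =>
      obtain ⟨ha, fa, hfa, ea⟩ := iha
      obtain ⟨hb, fb, hfb, eb⟩ := ihb
      refine ⟨K.mul_mem ha hb, fa + fb, addne _ _ hfa, ?_⟩
      have hh : (Φ fa + Φ fb) (q g) = Φ fa (q g) + Φ fb (q g) := rfl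
      rw [hq a ha b hb, map_add, hh, ea, eb]
  have i2 : ∀ α : MonoidAlgebra ℕ (G ⧸ A), α = 0 ∨ ∀ x ∈ K, ∃ U, U ∈ K ∧ NS x U ∧
      q U = Φ α (q x) := by
    intro α
    have hadd : ∀ x y : MonoidAlgebra ℕ (G ⧸ A),
        (x = 0 ∨ ∀ z ∈ K, ∃ U, U ∈ K ∧ NS z U ∧ q U = Φ x (q z)) →
        (y = 0 ∨ ∀ z ∈ K, ∃ U, U ∈ K ∧ NS z U ∧ q U = Φ y (q z)) →
        (x + y = 0 ∨ ∀ z ∈ K, ∃ U, U ∈ K ∧ NS z U ∧ q U = Φ (x + y) (q z)) := by
      intro x y hx hy
      rcases hx with hx | hx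
      · subst hx; rw [zero_add]; exact hy
      rcases hy with hy | hy
      · subst hy; rw [add_zero]; exact Or.inr hx
      right
      intro z hz
      obtain ⟨U, hU, nU, eU⟩ := hx z hz
      obtain ⟨V, hV, nV, eV⟩ := hy z hz
      refine ⟨U * V, K.mul_mem hU hV, NS.mul _ _ nU nV, ?_⟩
      have hh : (Φ x + Φ y) (q z) = Φ x (q z) + Φ y (q z) := rfl
      rw [hq U hU V hV, map_add, hh, eU, eV]
    induction α using MonoidAlgebra.induction_on with
    | of m =>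
      right
      intro x hx
      obtain ⟨w, rfl⟩ := QuotientGroup.mk_surjective m
      refine ⟨w * x * w⁻¹, hKn.conj_mem x hx w, NS.conj w, ?_⟩
      rw [Φof, hΨ w x hx]
    | add x y hx hy => exact hadd x y hx hy
    | smul r x hx =>
      induction r with
      | zero => left; rw [zero_smul]
      | succ n ih => rw [add_smul, one_smul]; exact hadd _ _ ih hx
  obtain ⟨hsK, f1, hf1, e1⟩ := i1 s hs
  obtain ⟨htK, f2, hf2, e2⟩ := i1 t ht
  obtain ⟨α, β, hα, hβ, hab⟩ := hOre f1 f2 hf1 hf2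
  obtain ⟨U, hU, nU, eU⟩ := (i2 α).resolve_left hα s hsK
  obtain ⟨V, hV, nV, eV⟩ := (i2 β).resolve_left hβ t htK
  refine ⟨U, V, nU, nV, ?_⟩
  rw [eU, eV, e1, e2]
  have h1 : Φ α (Φ f1 (q g)) = Φ (α * f1) (q g) := by rw [map_mul]; rfl
  have h2 : Φ β (Φ f2 (q g)) = Φ (β * f2) (q g) := by rw [map_mul]; rfl
  rw [h1, h2, hab]

theorem ore_common {G : Type} [Group G] (A K L : Subgroup G) (hA : A.Normal) (hK : K.Normal) (hL : L.Normal)
    (hLK : L ≤ K) (hKK : ∀ a ∈ K, ∀ b ∈ K, a * b * a⁻¹ * b⁻¹ ∈ L) (hAK : ∀ a ∈ A, ∀ b ∈ K, a * b * a⁻¹ * b⁻¹ ∈ L)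
    (hOre : ∀ f g : MonoidAlgebra ℕ (G ⧸ A), f ≠ 0 → g ≠ 0 →
      ∃ s t : MonoidAlgebra ℕ (G ⧸ A), s ≠ 0 ∧ t ≠ 0 ∧ s * f = t * g)
    (g : G) (hg : g ∈ K) (s t : G) (hs : NS g s) (ht : NS g t) :
    ∃ U V : G, NS s U ∧ NS t V ∧ U⁻¹ * V ∈ L := by
  classical
  haveI := hA
  haveI := hK
  haveI := hL
  have hcomm : ∀ a b : K ⧸ (L.subgroupOf K), a * b = b * a := by
    intro a b
    obtain ⟨a, rfl⟩ := QuotientGroup.mk_surjective a
    obtain ⟨b, rfl⟩ := QuotientGroup.mk_surjective b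
    rw [← QuotientGroup.mk_mul, ← QuotientGroup.mk_mul, QuotientGroup.eq, Subgroup.mem_subgroupOf]
    have := hKK (b⁻¹ : K) (b⁻¹ : K).2 (a⁻¹ : K) (a⁻¹ : K).2
    simpa [mul_assoc] using this
  let inst : CommGroup (K ⧸ (L.subgroupOf K)) :=
    { (inferInstance : Group (K ⧸ (L.subgroupOf K))) with mul_comm := hcomm }
  let M := Additive (K ⧸ (L.subgroupOf K))
  let q : G → M := fun x => if h : x ∈ K then Additive.ofMul (QuotientGroup.mk ⟨x, h⟩) else 0
  have qK : ∀ x (h : x ∈ K), q x = Additive.ofMul (QuotientGroup.mk ⟨x, h⟩) := fun x h => by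
    simp only [q, dif_pos h]
  have hmap : ∀ w : G, L.subgroupOf K ≤ (L.subgroupOf K).comap
      ((MulAut.conjNormal w : K ≃* K) : K →* K) := by
    intro w x hx
    rw [Subgroup.mem_comap, Subgroup.mem_subgroupOf]
    rw [Subgroup.mem_subgroupOf] at hx
    have := hL.conj_mem _ hx w
    simpa using this
  let ψ : G → AddMonoid.End M := fun w => MonoidHom.toAdditive
    (QuotientGroup.map (L.subgroupOf K) (L.subgroupOf K)
      ((MulAut.conjNormal w : K ≃* K) : K →* K) (hmap w))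
  have ψq : ∀ w x (hx : x ∈ K), ψ w (q x) = q (w * x * w⁻¹) := by
    intro w x hx
    rw [qK x hx, qK _ (hK.conj_mem x hx w)]
    rfl
  have qsurj : ∀ m : M, ∃ x, ∃ hx : x ∈ K, q x = m := by
    intro m
    obtain ⟨x, hx⟩ := QuotientGroup.mk_surjective (Additive.toMul m)
    refine ⟨x.1, x.2, ?_⟩
    rw [qK x.1 x.2]
    exact congrArg Additive.ofMul hx
  let ψh : G →* AddMonoid.End M :=
    { toFun := ψ
      map_one' := by
        apply AddMonoidHom.ext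
        intro m
        obtain ⟨x, hx, rfl⟩ := qsurj m
        refine (ψq 1 x hx).trans ?_
        rw [one_mul, inv_one, mul_one]
        rfl
      map_mul' := by
        intro a b
        apply AddMonoidHom.ext
        intro m
        obtain ⟨x, hx, rfl⟩ := qsurj m
        have : (ψ a * ψ b) (q x) = ψ a (ψ b (q x)) := rfl
        refine (ψq (a * b) x hx).trans ?_
        refine Eq.trans ?_ this.symm
        refine Eq.trans ?_ (congrArg (ψ a) (ψq b x hx)).symm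
        refine Eq.trans ?_ (ψq a _ (hK.conj_mem x hx b)).symm
        congr 1
        group }
  have hq : ∀ a ∈ K, ∀ b ∈ K, q (a * b) = q a + q b := by
    intro a ha b hb
    rw [qK a ha, qK b hb, qK _ (K.mul_mem ha hb)]
    rfl
  have qeq : ∀ a (ha : a ∈ K) b (hb : b ∈ K), q a = q b ↔ a⁻¹ * b ∈ L := by
    intro a ha b hb
    rw [qK a ha, qK b hb]
    have : (Additive.ofMul (QuotientGroup.mk (s := L.subgroupOf K) ⟨a, ha⟩) =
      Additive.ofMul (QuotientGroup.mk (s := L.subgroupOf K) ⟨b, hb⟩)) ↔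
      (QuotientGroup.mk (s := L.subgroupOf K) ⟨a, ha⟩ =
        QuotientGroup.mk (s := L.subgroupOf K) ⟨b, hb⟩) := Iff.rfl
    rw [this, QuotientGroup.eq, Subgroup.mem_subgroupOf]
    rfl
  have hker : A ≤ ψh.ker := by
    intro a ha
    rw [MonoidHom.mem_ker]
    apply AddMonoidHom.ext
    intro m
    obtain ⟨x, hx, rfl⟩ := qsurj m
    have e1 : (ψh a) (q x) = q (a * x * a⁻¹) := ψq a x hx
    have e2 : (1 : AddMonoid.End M) (q x) = q x := rfl
    refine e1.trans (Eq.trans ?_ e2.symm)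
    rw [qeq _ (hK.conj_mem x hx a) x hx]
    have h := hAK a ha x⁻¹ (K.inv_mem hx)
    simpa [mul_assoc] using h
  have hNSK : ∀ x ∈ K, ∀ y, NS x y → y ∈ K := by
    intro x hx y hy
    induction hy with
    | conj w => exact hK.conj_mem x hx w
    | mul a b _ _ ha hb => exact K.mul_mem ha hb
  obtain ⟨U, V, hU, hV, hUV⟩ := ore_abs A K q hq (QuotientGroup.lift A ψh hker)
    (fun w x hx => ψq w x hx) hOre g hg s t hs ht
  refine ⟨U, V, hU, hV, ?_⟩
  have hsK := hNSK g hg s hs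
  have htK := hNSK g hg t ht
  exact (qeq U (hNSK s hsK U hU) V (hNSK t htK V hV)).1 hUV

end H294OStar
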