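import Pool.Agent.Helper294.OSt.Core
set_option autoImplicit false
set_option linter.all false

namespace H294OStar


theorem LS_map {G H : Type} [Group G] [Group H] (f : G →* H) (hf : Function.Surjective f)
    (N : Subgroup G) : ∀ k, LS (N.map f) k = (LS N k).map f
  | 0 => rfl
  | k + 1 => by
    show ⁅LS (N.map f) k, (⊤ : Subgroup H)⁆ = (⁅LS N k, (⊤ : Subgroup G)⁆).map f
    rw [Subgroup.map_commutator, LS_map f hf N k, Subgroup.map_top_of_surjective f hf]

theorem NS.map {G H : Type} [Group G] [Group H] (f : G →* H) {g U : G} (h : NS g U) :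
    NS (f g) (f U) := by
  induction h with
  | conj x =>
    have := NS.conj (g := f g) (f x)
    simpa [map_mul, map_inv] using this
  | mul a b _ _ iha ihb => rw [map_mul]; exact NS.mul _ _ iha ihb

theorem LS_le {G : Type} [Group G] (N : Subgroup G) (hN : N.Normal) : ∀ k, LS N k ≤ N
  | 0 => le_rfl
  | k + 1 => by
    show ⁅LS N k, (⊤ : Subgroup G)⁆ ≤ N
    exact (Subgroup.commutator_mono (LS_le N hN k) le_rfl).trans
      (Subgroup.commutator_le_left N ⊤)

/-- the basic computation -/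
theorem comm_of_pow {G : Type} [Group G] (h z : G) (n : ℕ)
    (hu : h * (h * z * h⁻¹ * z⁻¹) = (h * z * h⁻¹ * z⁻¹) * h)
    (hc : h ^ n * z = z * h ^ n) : (h * z * h⁻¹ * z⁻¹) ^ n = 1 := by
  obtain ⟨u, hudef⟩ : ∃ u, u = h * z * h⁻¹ * z⁻¹ := ⟨_, rfl⟩
  rw [← hudef] at hu ⊢
  have h1 : h * z = u * z * h := by rw [hudef]; group
  have h2 : ∀ k : ℕ, h ^ k * z = u ^ k * z * h ^ k := by
    intro k
    induction k with
    | zero => simp
    | succ k ih =>
      have hcu : h * u ^ k = u ^ k * h := (Commute.pow_right (show Commute h u from hu) k)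
      calc h ^ (k + 1) * z = h * (h ^ k * z) := by rw [pow_succ', mul_assoc]
        _ = h * (u ^ k * z * h ^ k) := by rw [ih]
        _ = (h * u ^ k) * z * h ^ k := by group
        _ = u ^ k * (h * z) * h ^ k := by rw [hcu]; group
        _ = u ^ k * (u * z * h) * h ^ k := by rw [h1]
        _ = u ^ (k + 1) * z * h ^ (k + 1) := by rw [pow_succ u, pow_succ' h]; group
  have h3 := h2 n
  rw [hc] at h3
  have h4 : u ^ n * (z * h ^ n) = 1 * (z * h ^ n) := by
    rw [one_mul, ← mul_assoc, ← h3]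
  exact mul_right_cancel h4

theorem central_root {G : Type} [Group G] (N : Subgroup G) (hN : N.Normal) (m : ℕ)
    (hnil : LS N m ≤ ⊥) (htf : ∀ h ∈ N, ∀ n : ℕ, 0 < n → h ^ n = 1 → h = 1)
    (h : G) (hh : h ∈ N) (n : ℕ) (hn : 0 < n) (hc : h ^ n ∈ Subgroup.center G) :
    h ∈ Subgroup.center G := by
  have hcz : ∀ z : G, h ^ n * z = z * h ^ n := fun z =>
    ((Subgroup.mem_center_iff.1 hc) z).symm
  have key : ∀ z : G, (h * (h * z * h⁻¹ * z⁻¹) = (h * z * h⁻¹ * z⁻¹) * h) →
      h * z * h⁻¹ * z⁻¹ ∈ N → h * z = z * h := by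
    intro z h1 h2
    have h3 := htf _ h2 n hn (comm_of_pow h z n h1 (hcz z))
    have h4 : h * z * h⁻¹ * z⁻¹ * (z * h) = 1 * (z * h) := by rw [h3]
    rw [one_mul] at h4
    rw [← h4]
    group
  have hN1 : ∀ w : G, h * w * h⁻¹ * w⁻¹ ∈ N := by
    intro w
    have h1 : w * h⁻¹ * w⁻¹ ∈ N := hN.conj_mem _ (N.inv_mem hh) w
    have h2 := N.mul_mem hh h1
    simpa [mul_assoc] using h2
  have step : ∀ k, k ≤ m → ∀ z ∈ LS N (m - k), h * z = z * h := by
    intro k
    induction k with
    | zero =>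
      intro _ z hz
      have h1 : z = 1 := Subgroup.mem_bot.1 (hnil hz)
      rw [h1, mul_one, one_mul]
    | succ k ih =>
      intro hk z hz
      apply key z
      · have e : m - k = (m - (k + 1)) + 1 := by omega
        have h1 : h * z * h⁻¹ * z⁻¹ ∈ LS N (m - k) := by
          rw [e]
          show h * z * h⁻¹ * z⁻¹ ∈ ⁅LS N (m - (k + 1)), (⊤ : Subgroup G)⁆
          have h2 := Subgroup.commutator_mem_commutator hz (Subgroup.mem_top h)
          have h3 := Subgroup.inv_mem _ h2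
          rwa [commutatorElement_inv, commutatorElement_def] at h3
        exact ih (by omega) _ h1
      · exact hN1 z
  have hNc : ∀ z ∈ N, h * z = z * h := by
    intro z hz
    have h1 := step m le_rfl z
    rw [Nat.sub_self] at h1
    exact h1 hz
  rw [Subgroup.mem_center_iff]
  intro w
  exact (key w (hNc _ (hN1 w)) (hN1 w)).symm

theorem rel0 (m : ℕ) : ∀ {G : Type} [Group G] (N : Subgroup G) (_ : N.Normal)
    (_ : LS N m ≤ ⊥) (_ : ∀ h ∈ N, ∀ n : ℕ, 0 < n → h ^ n = 1 → h = 1)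
    (g U : G) (_ : g ∈ N) (_ : NS g U) (_ : U = 1), g = 1 := by
  induction m with
  | zero =>
    intro G _ N _ hnil _ g U hg _ _
    exact Subgroup.mem_bot.1 (hnil hg)
  | succ m ih =>
    intro G _ N hN hnil htf g U hg hU hU1
    have hLc : LS N m ≤ Subgroup.center G := by
      have h1 : ⁅LS N m, (⊤ : Subgroup G)⁆ ≤ ⊥ := hnil
      intro z hz
      rw [Subgroup.mem_center_iff]
      intro w
      have h2 := h1 (Subgroup.commutator_mem_commutator hz (Subgroup.mem_top w))
      have h3 : z * w * z⁻¹ * w⁻¹ = 1 := by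
        have := Subgroup.mem_bot.1 h2
        rwa [commutatorElement_def] at this
      have h4 : z * w * z⁻¹ * w⁻¹ * (w * z) = 1 * (w * z) := by rw [h3]
      rw [one_mul] at h4
      rw [← h4]
      group
    obtain ⟨C, hCdef⟩ : ∃ C : Subgroup G, C = N ⊓ Subgroup.center G := ⟨_, rfl⟩
    haveI hC : C.Normal := by
      rw [hCdef]
      haveI := hN
      infer_instance
    have hLC : LS N m ≤ C := by rw [hCdef]; exact le_inf (LS_le N hN m) hLc
    have hs := QuotientGroup.mk'_surjective C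
    have hN' : (N.map (QuotientGroup.mk' C)).Normal := hN.map _ hs
    have h1 : LS (N.map (QuotientGroup.mk' C)) m ≤ ⊥ := by
      rw [LS_map _ hs, Subgroup.map_le_iff_le_comap]
      intro z hz
      rw [Subgroup.mem_comap, Subgroup.mem_bot]
      exact (QuotientGroup.eq_one_iff z).2 (hLC hz)
    have h2 := ih (N.map (QuotientGroup.mk' C)) hN' h1 (by
      rintro _ ⟨h, hh, rfl⟩ n hn h3
      rw [← map_pow] at h3
      have h4 : h ^ n ∈ C := (QuotientGroup.eq_one_iff (h ^ n)).1 h3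
      rw [hCdef] at h4
      have h5 := central_root N hN (m + 1) hnil htf h hh n hn (Subgroup.mem_inf.1 h4).2
      have h6 : h ∈ C := by rw [hCdef]; exact Subgroup.mem_inf.2 ⟨hh, h5⟩
      exact (QuotientGroup.eq_one_iff h).2 h6) (QuotientGroup.mk' C g) (QuotientGroup.mk' C U)
      (Subgroup.mem_map_of_mem _ hg) (hU.map _) (by rw [hU1, map_one])
    have hgC : g ∈ C := (QuotientGroup.eq_one_iff g).1 h2
    have hgc : g ∈ Subgroup.center G := by
      rw [hCdef] at hgC
      exact (Subgroup.mem_inf.1 hgC).2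
    have hpow : ∀ V : G, NS g V → ∃ k : ℕ, 0 < k ∧ V = g ^ k := by
      intro V hV
      induction hV with
      | conj x =>
        refine ⟨1, one_pos, ?_⟩
        rw [pow_one, (Subgroup.mem_center_iff.1 hgc) x, mul_assoc, mul_inv_cancel, mul_one]
      | mul a b _ _ iha ihb =>
        obtain ⟨k1, hk1, e1⟩ := iha
        obtain ⟨k2, hk2, e2⟩ := ihb
        exact ⟨k1 + k2, by omega, by rw [e1, e2, pow_add]⟩
    obtain ⟨k, hk, e⟩ := hpow U hU
    exact htf g hg k hk (by rw [← e, hU1])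

theorem rel_torsion {G : Type} [Group G] (N C : Subgroup G) (hN : N.Normal) (hC : C.Normal) (hCN : C ≤ N)
    (hnil : ∃ m, LS N m ≤ C) (htf : ∀ h ∈ N, ∀ n : ℕ, 0 < n → h ^ n ∈ C → h ∈ C)
    (g U : G) (hg : g ∈ N) (hU : NS g U) (hUC : U ∈ C) : g ∈ C := by
  obtain ⟨m, hm⟩ := hnil
  have hs := QuotientGroup.mk'_surjective C
  have hN' : (N.map (QuotientGroup.mk' C)).Normal := hN.map _ hs
  have h1 : LS (N.map (QuotientGroup.mk' C)) m ≤ ⊥ := by
    rw [LS_map _ hs, Subgroup.map_le_iff_le_comap]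
    intro z hz
    rw [Subgroup.mem_comap, Subgroup.mem_bot]
    exact (QuotientGroup.eq_one_iff z).2 (hm hz)
  have h2 := rel0 m (N.map (QuotientGroup.mk' C)) hN' h1 (by
    rintro _ ⟨h, hh, rfl⟩ n hn h3
    rw [← map_pow] at h3
    have h4 : h ^ n ∈ C := (QuotientGroup.eq_one_iff (h ^ n)).1 h3
    exact (QuotientGroup.eq_one_iff h).2 (htf h hh n hn h4)) (QuotientGroup.mk' C g)
    (QuotientGroup.mk' C U) (Subgroup.mem_map_of_mem _ hg) (hU.map _)
    ((QuotientGroup.eq_one_iff U).2 hUC)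
  exact (QuotientGroup.eq_one_iff g).1 h2

end H294OStar
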