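import Pool.Agent.Helper294.OSt.Core
set_option autoImplicit false
set_option linter.all false

namespace H294OStar


theorem phi_mem {G : Type} [Group G] {A : Subgroup G} (hA : A.Normal) {a : G} (ha : a ∈ A) (x : G) :
    a * x * a⁻¹ * x⁻¹ ∈ A := by
  have h := hA.conj_mem a⁻¹ (A.inv_mem ha) x
  have : a * x * a⁻¹ * x⁻¹ = a * (x * a⁻¹ * x⁻¹) := by group
  rw [this]
  exact A.mul_mem ha h

/-- products of the basic commutators along a list -/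
def BB {G : Type} [Group G] (A : Subgroup G) (U : G) : List G → G → Prop
  | [], c => c = 1
  | (w :: L), c => ∃ b ∈ A, ∃ c', BB A U L c' ∧
      c = (b * (w * U * w⁻¹) * b⁻¹ * (w * U * w⁻¹)⁻¹) * c'

def WW {G : Type} [Group G] (U : G) : List G → G
  | [] => 1
  | (w :: L) => (w * U * w⁻¹) * WW U L

theorem BB_mem {G : Type} [Group G] {A : Subgroup G} (hA : A.Normal) {U : G} :
    ∀ (L : List G) (c : G), BB A U L c → c ∈ A
  | [], c, h => by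
    have h' : c = 1 := h
    rw [h']
    exact A.one_mem
  | (w :: L), c, h => by
    obtain ⟨b, hb, c', hc', rfl⟩ := h
    exact A.mul_mem (phi_mem hA hb _) (BB_mem hA L c' hc')

theorem BB_one {G : Type} [Group G] {A : Subgroup G} {U : G} : ∀ L : List G, BB A U L 1
  | [] => rfl
  | (w :: L) => ⟨1, A.one_mem, 1, BB_one L, by group⟩

theorem phi_hom {G : Type} [Group G] {A : Subgroup G} (hA : A.Normal)
    (hAab : ∀ a ∈ A, ∀ b ∈ A, a * b = b * a) {a b : G} (ha : a ∈ A) (hb : b ∈ A) (x : G) :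
    (a * b) * x * (a * b)⁻¹ * x⁻¹ = (a * x * a⁻¹ * x⁻¹) * (b * x * b⁻¹ * x⁻¹) := by
  have h1 := hAab b hb _ (hA.conj_mem a⁻¹ (A.inv_mem ha) x)
  have h2 := hAab _ (hA.conj_mem a⁻¹ (A.inv_mem ha) x) _ (hA.conj_mem b⁻¹ (A.inv_mem hb) x)
  calc (a * b) * x * (a * b)⁻¹ * x⁻¹ = a * b * ((x * b⁻¹ * x⁻¹) * (x * a⁻¹ * x⁻¹)) := by group
    _ = a * b * ((x * a⁻¹ * x⁻¹) * (x * b⁻¹ * x⁻¹)) := by rw [h2]
    _ = a * (b * (x * a⁻¹ * x⁻¹)) * (x * b⁻¹ * x⁻¹) := by group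
    _ = a * ((x * a⁻¹ * x⁻¹) * b) * (x * b⁻¹ * x⁻¹) := by rw [h1]
    _ = _ := by group

theorem phi_inv {G : Type} [Group G] {A : Subgroup G} (hA : A.Normal)
    (hAab : ∀ a ∈ A, ∀ b ∈ A, a * b = b * a) {a : G} (ha : a ∈ A) (x : G) :
    a⁻¹ * x * a⁻¹⁻¹ * x⁻¹ = (a * x * a⁻¹ * x⁻¹)⁻¹ := by
  have h1 := hAab a⁻¹ (A.inv_mem ha) _ (hA.conj_mem a ha x)
  calc a⁻¹ * x * a⁻¹⁻¹ * x⁻¹ = a⁻¹ * (x * a * x⁻¹) := by group
    _ = (x * a * x⁻¹) * a⁻¹ := h1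
    _ = _ := by group

theorem BB_mul {G : Type} [Group G] {A : Subgroup G} (hA : A.Normal)
    (hAab : ∀ a ∈ A, ∀ b ∈ A, a * b = b * a) {U : G} :
    ∀ (L : List G) (c d : G), BB A U L c → BB A U L d → BB A U L (c * d)
  | [], c, d, hc, hd => by
    have hc' : c = 1 := hc
    have hd' : d = 1 := hd
    rw [hc', hd', one_mul]
    exact rfl
  | (w :: L), c, d, hc, hd => by
    obtain ⟨b, hb, c', hc', rfl⟩ := hc
    obtain ⟨e, he, d', hd', rfl⟩ := hd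
    refine ⟨b * e, A.mul_mem hb he, c' * d', BB_mul hA hAab L c' d' hc' hd', ?_⟩
    rw [phi_hom hA hAab hb he]
    have h1 := hAab c' (BB_mem hA L c' hc') _ (phi_mem hA he (w * U * w⁻¹))
    calc _ = b * (w * U * w⁻¹) * b⁻¹ * (w * U * w⁻¹)⁻¹ *
          (c' * (e * (w * U * w⁻¹) * e⁻¹ * (w * U * w⁻¹)⁻¹)) * d' := by group
      _ = b * (w * U * w⁻¹) * b⁻¹ * (w * U * w⁻¹)⁻¹ *
          ((e * (w * U * w⁻¹) * e⁻¹ * (w * U * w⁻¹)⁻¹) * c') * d' := by rw [h1]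
      _ = _ := by group

theorem BB_inv {G : Type} [Group G] {A : Subgroup G} (hA : A.Normal)
    (hAab : ∀ a ∈ A, ∀ b ∈ A, a * b = b * a) {U : G} :
    ∀ (L : List G) (c : G), BB A U L c → BB A U L c⁻¹
  | [], c, hc => by
    have hc' : c = 1 := hc
    rw [hc', inv_one]
    exact rfl
  | (w :: L), c, hc => by
    obtain ⟨b, hb, c', hc', rfl⟩ := hc
    refine ⟨b⁻¹, A.inv_mem hb, c'⁻¹, BB_inv hA hAab L c' hc', ?_⟩
    rw [phi_inv hA hAab hb, mul_inv_rev]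
    exact hAab _ (A.inv_mem (BB_mem hA L c' hc')) _ (A.inv_mem (phi_mem hA hb _))

theorem BB_gen {G : Type} [Group G] {A : Subgroup G} {U : G} :
    ∀ (L : List G) (w : G), w ∈ L → ∀ b ∈ A,
      BB A U L (b * (w * U * w⁻¹) * b⁻¹ * (w * U * w⁻¹)⁻¹)
  | [], w, hw, b, hb => by simp at hw
  | (v :: L), w, hw, b, hb => by
    rcases List.mem_cons.1 hw with rfl | hw
    · exact ⟨b, hb, 1, BB_one L, by group⟩
    · exact ⟨1, A.one_mem, _, BB_gen L w hw b hb, by group⟩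

/-- the subgroup of products -/
def BS {G : Type} [Group G] (A : Subgroup G) (hA : A.Normal)
    (hAab : ∀ a ∈ A, ∀ b ∈ A, a * b = b * a) (U : G) (L : List G) : Subgroup G where
  carrier := {c | BB A U L c}
  mul_mem' := fun {a b} ha hb => BB_mul hA hAab L a b ha hb
  one_mem' := BB_one L
  inv_mem' := fun {a} ha => BB_inv hA hAab L a ha

/-- elements acting trivially modulo `BS` -/
def CB {G : Type} [Group G] (A : Subgroup G) (hA : A.Normal)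
    (hAab : ∀ a ∈ A, ∀ b ∈ A, a * b = b * a) (U : G) (L : List G) : Subgroup G where
  carrier := {y | ∀ a ∈ A, a * y * a⁻¹ * y⁻¹ ∈ BS A hA hAab U L}
  mul_mem' := by
    intro y z hy hz a ha
    have he : a * z * a⁻¹ * z⁻¹ ∈ A := phi_mem hA ha z
    have h1 : a * (y * z) * a⁻¹ * (y * z)⁻¹ = (a * y * a⁻¹ * y⁻¹) *
        (((a * z * a⁻¹ * z⁻¹) * y * (a * z * a⁻¹ * z⁻¹)⁻¹ * y⁻¹)⁻¹ * (a * z * a⁻¹ * z⁻¹)) := by
      group
    rw [h1]
    exact Subgroup.mul_mem _ (hy a ha)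
      (Subgroup.mul_mem _ (Subgroup.inv_mem _ (hy _ he)) (hz a ha))
  one_mem' := by
    intro a ha
    have : a * 1 * a⁻¹ * 1⁻¹ = 1 := by group
    rw [this]
    exact Subgroup.one_mem _
  inv_mem' := by
    intro y hy a ha
    have hb : y⁻¹ * a⁻¹ * y ∈ A := by
      have := hA.conj_mem a⁻¹ (A.inv_mem ha) y⁻¹
      rwa [inv_inv] at this
    have h1 : a * y⁻¹ * a⁻¹ * y⁻¹⁻¹ = (y⁻¹ * a⁻¹ * y) * y * (y⁻¹ * a⁻¹ * y)⁻¹ * y⁻¹ := by
      have h2 := hAab a ha _ hb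
      calc a * y⁻¹ * a⁻¹ * y⁻¹⁻¹ = a * (y⁻¹ * a⁻¹ * y) := by group
        _ = (y⁻¹ * a⁻¹ * y) * a := h2
        _ = _ := by group
    rw [h1]
    exact hy _ hb

theorem CB_A {G : Type} [Group G] {A : Subgroup G} (hA : A.Normal)
    (hAab : ∀ a ∈ A, ∀ b ∈ A, a * b = b * a) (U : G) (L : List G) :
    A ≤ CB A hA hAab U L := by
  intro y hy a ha
  have : a * y * a⁻¹ * y⁻¹ = 1 := by
    rw [hAab a ha y hy]
    group
  rw [this]
  exact Subgroup.one_mem _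

theorem neg_key {G : Type} [Group G] {A : Subgroup G} (hA : A.Normal)
    (hAab : ∀ a ∈ A, ∀ b ∈ A, a * b = b * a) {P : Set G} (hP : Cone P) {U : G} (hU : U⁻¹ ∈ P) :
    ∀ (L : List G) (c : G), BB A U L c → (c * WW U L)⁻¹ = 1 ∧ L = [] ∨ (c * WW U L)⁻¹ ∈ P
  | [], c, hc => by
    have hc' : c = 1 := hc
    left
    refine ⟨?_, rfl⟩
    rw [hc']
    simp [WW]
  | (w :: L), c, hc => by
    obtain ⟨b, hb, c', hc', rfl⟩ := hc
    right
    have hcA := BB_mem hA L c' hc'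
    obtain ⟨x, hx⟩ : ∃ x, x = w * U * w⁻¹ := ⟨_, rfl⟩
    have hid : (b * x * b⁻¹ * x⁻¹) * c' * (x * WW U L) =
        ((b * c') * x * (b * c')⁻¹) * (c' * WW U L) := by
      have h1 : x⁻¹ * c' * x ∈ A := by
        have := hA.conj_mem c' hcA x⁻¹
        rwa [inv_inv] at this
      have h2 := hAab b⁻¹ (A.inv_mem hb) _ h1
      have h3 := hAab b⁻¹ (A.inv_mem hb) c' hcA
      calc (b * x * b⁻¹ * x⁻¹) * c' * (x * WW U L)
          = b * x * (b⁻¹ * (x⁻¹ * c' * x)) * WW U L := by group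
        _ = b * x * ((x⁻¹ * c' * x) * b⁻¹) * WW U L := by rw [h2]
        _ = b * c' * x * (c'⁻¹ * (c' * b⁻¹)) * WW U L := by group
        _ = b * c' * x * (c'⁻¹ * (b⁻¹ * c')) * WW U L := by rw [h3]
        _ = _ := by group
    have hx' : (b * c' * x * (b * c')⁻¹)⁻¹ ∈ P := by
      have := hP.conj U⁻¹ hU (b * c' * w)
      have h4 : (b * c' * x * (b * c')⁻¹)⁻¹ = (b * c' * w) * U⁻¹ * (b * c' * w)⁻¹ := by
        rw [hx]
        group
      rw [h4]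
      exact this
    have h5 : (b * (w * U * w⁻¹) * b⁻¹ * (w * U * w⁻¹)⁻¹ * c' * WW U (w :: L))⁻¹ =
        (c' * WW U L)⁻¹ * (b * c' * x * (b * c')⁻¹)⁻¹ := by
      rw [← mul_inv_rev, ← hid, hx]
      rfl
    rw [h5]
    rcases neg_key hA hAab hP hU L c' hc' with ⟨h6, -⟩ | h6
    · rw [h6, one_mul]
      exact hx'
    · exact hP.mul _ h6 _ hx'

theorem pos_key {G : Type} [Group G] {P : Set G} (hP : Cone P) {V : G} (hV : V ∈ P) :
    ∀ L : List G, (WW V L = 1 ∧ L = []) ∨ WW V L ∈ P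
  | [] => Or.inl ⟨rfl, rfl⟩
  | (w :: L) => by
    right
    have h1 := hP.conj V hV w
    rcases pos_key hP hV L with ⟨h, -⟩ | h
    · show w * V * w⁻¹ * WW V L ∈ P
      rw [h, mul_one]
      exact h1
    · exact hP.mul _ h1 _ h

theorem theta_key {G : Type} [Group G] (U V : G) :
    ∀ L : List G, ∃ θ : G, θ * WW U L = WW V L ∧
      ∀ D : Subgroup G, D.Normal → U⁻¹ * V ∈ D → θ ∈ D
  | [] => ⟨1, by simp [WW], fun D _ _ => D.one_mem⟩
  | (w :: L) => by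
    obtain ⟨θ, h1, h2⟩ := theta_key U V L
    refine ⟨((w * U * w⁻¹) * w * (U⁻¹ * V) * ((w * U * w⁻¹) * w)⁻¹) *
      ((w * U * w⁻¹) * θ * (w * U * w⁻¹)⁻¹), ?_, fun D hD hτ => ?_⟩
    · show _ * ((w * U * w⁻¹) * WW U L) = (w * V * w⁻¹) * WW V L
      rw [← h1]
      group
    · exact D.mul_mem (hD.conj_mem _ hτ _) (hD.conj_mem _ (h2 D hD hτ) _)

def Le {G : Type} [Group G] (P : Set G) (x y : G) : Prop := x = y ∨ x⁻¹ * y ∈ P

theorem Le.trans {G : Type} [Group G] {P : Set G} (hP : Cone P) {x y z : G} (h1 : Le P x y)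
    (h2 : Le P y z) : Le P x z := by
  rcases h1 with rfl | h1
  · exact h2
  · rcases h2 with rfl | h2
    · exact Or.inr h1
    · right
      have : x⁻¹ * z = (x⁻¹ * y) * (y⁻¹ * z) := by group
      rw [this]
      exact hP.mul _ h1 _ h2

theorem Le.mul_left {G : Type} [Group G] {P : Set G} {x y : G} (h : Le P x y) (g : G) :
    Le P (g * x) (g * y) := by
  rcases h with rfl | h
  · exact Or.inl rfl
  · right
    have : (g * x)⁻¹ * (g * y) = x⁻¹ * y := by group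
    rw [this]
    exact h

theorem Le.mul_right {G : Type} [Group G] {P : Set G} (hP : Cone P) {x y : G} (h : Le P x y)
    (g : G) : Le P (x * g) (y * g) := by
  rcases h with rfl | h
  · exact Or.inl rfl
  · right
    have : (x * g)⁻¹ * (y * g) = g⁻¹ * (x⁻¹ * y) * g⁻¹⁻¹ := by group
    rw [this]
    exact hP.conj _ h _

theorem Le.inv {G : Type} [Group G] {P : Set G} (hP : Cone P) {x y : G} (h : Le P x y) :
    Le P y⁻¹ x⁻¹ := by
  rcases h with rfl | h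
  · exact Or.inl rfl
  · right
    have : y⁻¹⁻¹ * x⁻¹ = x * (x⁻¹ * y) * x⁻¹ := by group
    rw [this]
    exact hP.conj _ h _

/-- convex hull of a normal subgroup -/
def Hull {G : Type} [Group G] (T K : Subgroup G) {P : Set G} (hP : Cone P) : Subgroup G where
  carrier := {y | y ∈ T ∧ (∃ b ∈ K, Le P b y) ∧ ∃ b ∈ K, Le P y b}
  mul_mem' := by
    rintro y z ⟨hy, ⟨b, hb, h1⟩, ⟨b', hb', h2⟩⟩ ⟨hz, ⟨c, hc, h3⟩, ⟨c', hc', h4⟩⟩
    exact ⟨T.mul_mem hy hz,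
      ⟨b * c, K.mul_mem hb hc, Le.trans hP (h3.mul_left b) (Le.mul_right hP h1 z)⟩,
      ⟨b' * c', K.mul_mem hb' hc', Le.trans hP (h4.mul_left y) (Le.mul_right hP h2 c')⟩⟩
  one_mem' := ⟨T.one_mem, ⟨1, K.one_mem, Or.inl rfl⟩, ⟨1, K.one_mem, Or.inl rfl⟩⟩
  inv_mem' := by
    rintro y ⟨hy, ⟨b, hb, h1⟩, ⟨b', hb', h2⟩⟩
    exact ⟨T.inv_mem hy, ⟨b'⁻¹, K.inv_mem hb', Le.inv hP h2⟩, ⟨b⁻¹, K.inv_mem hb, Le.inv hP h1⟩⟩

theorem Hull_CN {G : Type} [Group G] (T K : Subgroup G) (hT : T.Normal) (hK : K.Normal) {P : Set G}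
    (hP : Cone P) : CN T P (Hull T K hP) where
  nor := by
    refine ⟨?_⟩
    rintro y ⟨hy, ⟨b, hb, h1⟩, ⟨b', hb', h2⟩⟩ g
    exact ⟨hT.conj_mem y hy g,
      ⟨g * b * g⁻¹, hK.conj_mem b hb g, Le.mul_right hP (h1.mul_left g) _⟩,
      ⟨g * b' * g⁻¹, hK.conj_mem b' hb' g, Le.mul_right hP (h2.mul_left g) _⟩⟩
  le := fun y hy => hy.1
  conv := by
    rintro a ⟨ha, -, ⟨b', hb', h2⟩⟩ b hb hbP hba
    refine ⟨hb, ⟨1, K.one_mem, Or.inr ?_⟩, ⟨b', hb', Le.trans hP (Or.inr hba) h2⟩⟩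
    rw [inv_one, one_mul]
    exact hbP

theorem stepA {G : Type} [Group G] (A T : Subgroup G) (P : Set G) (J : Subgroup G) (hA : A.Normal)
    (hAab : ∀ a ∈ A, ∀ b ∈ A, a * b = b * a) (hAT : A ≤ T) (U V : G) (hUP : U⁻¹ ∈ P) (hVP : V ∈ P)
    (hLev : Lev T P (U⁻¹ * V) J)
    (hfgU : ∃ l : List G, Subgroup.normalClosure {U} ≤ Subgroup.closure {y | ∃ w ∈ l, y = w * U * w⁻¹} ⊔ A) :
    ∀ a ∈ A, a * U * a⁻¹ * U⁻¹ ∈ J := by
  obtain ⟨l, hl⟩ := hfgU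
  have hP := hLev.hP
  have hN : (Subgroup.normalClosure {U} : Subgroup G).Normal := Subgroup.normalClosure_normal
  have hNC : Subgroup.normalClosure {U} ≤ CB A hA hAab U (1 :: l) := by
    refine hl.trans (sup_le ?_ (CB_A hA hAab U _))
    rw [Subgroup.closure_le]
    rintro y ⟨w, hw, rfl⟩ a ha
    exact BB_gen (1 :: l) w (List.mem_cons_of_mem _ hw) a ha
  have hK : (⁅A, Subgroup.normalClosure {U}⁆ : Subgroup G).Normal := inferInstance
  have hKB : ⁅A, Subgroup.normalClosure {U}⁆ ≤ BS A hA hAab U (1 :: l) := by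
    rw [Subgroup.commutator_le]
    intro a ha n hn
    exact hNC hn a ha
  have hKT : ⁅A, Subgroup.normalClosure {U}⁆ ≤ T := fun c hc =>
    hAT (BB_mem hA _ c (hKB hc))
  obtain ⟨θ, hθ, hθD⟩ := theta_key U V (1 :: l)
  have hVW : WW V (1 :: l) ∈ P := by
    rcases pos_key hP hVP (1 :: l) with ⟨-, h⟩ | h
    · simp at h
    · exact h
  have hlt : ∀ c ∈ ⁅A, Subgroup.normalClosure {U}⁆, θ * c⁻¹ ∈ P := by
    intro c hc
    have h1 : (c * WW U (1 :: l))⁻¹ ∈ P := by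
      rcases neg_key hA hAab hP hUP (1 :: l) c (hKB hc) with ⟨-, h⟩ | h
      · simp at h
      · exact h
    have h2 : θ * c⁻¹ = WW V (1 :: l) * (c * WW U (1 :: l))⁻¹ := by
      rw [← hθ]
      group
    rw [h2]
    exact hP.mul _ hVW _ h1
  have hCN := Hull_CN T ⁅A, Subgroup.normalClosure {U}⁆ hLev.hT hK hP
  have hτ : U⁻¹ * V ∉ Hull T ⁅A, Subgroup.normalClosure {U}⁆ hP := by
    intro h
    have h1 := hθD _ hCN.nor h
    obtain ⟨-, -, b', hb', h2⟩ := h1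
    have h3 := hlt b' hb'
    rcases h2 with rfl | h2
    · rw [mul_inv_cancel] at h3
      exact hP.one h3
    · have h4 := hP.conj _ h3 θ⁻¹
      have h5 := hP.mul _ h4 _ h2
      have h6 : θ⁻¹ * (θ * b'⁻¹) * θ⁻¹⁻¹ * (θ⁻¹ * b') = 1 := by group
      rw [h6] at h5
      exact hP.one h5
  intro a ha
  apply hLev.max _ hCN hτ
  have hmem : a * U * a⁻¹ * U⁻¹ ∈ ⁅A, Subgroup.normalClosure {U}⁆ :=
    Subgroup.commutator_mem_commutator ha (Subgroup.subset_normalClosure rfl)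
  exact ⟨hKT hmem, ⟨_, hmem, Or.inl rfl⟩, ⟨_, hmem, Or.inl rfl⟩⟩

end H294OStar
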