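import Pool.Agent.Helper294.OSt.Core
set_option autoImplicit false
set_option linter.all false

namespace H294OStar



/-- the subgroup of elements commuting with `A` modulo `J` -/
def E0 {G : Type} [Group G] (A J : Subgroup G) (hJ : J.Normal) : Subgroup G where
  carrier := {h | ∀ a ∈ A, a * h * a⁻¹ * h⁻¹ ∈ J}
  one_mem' := by
    intro a ha
    simp
  mul_mem' := by
    intro h k hh hk a ha
    have e : a * (h * k) * a⁻¹ * (h * k)⁻¹ = (a * h * a⁻¹ * h⁻¹) * (h * (a * k * a⁻¹ * k⁻¹) * h⁻¹) := by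
      group
    rw [e]
    exact J.mul_mem (hh a ha) (hJ.conj_mem _ (hk a ha) h)
  inv_mem' := by
    intro h hh a ha
    have e : a * h⁻¹ * a⁻¹ * h⁻¹⁻¹ = h⁻¹ * (a * h * a⁻¹ * h⁻¹)⁻¹ * h⁻¹⁻¹ := by
      group
    rw [e]
    exact hJ.conj_mem _ (J.inv_mem (hh a ha)) h⁻¹

theorem E0_normal {G : Type} [Group G] (A J : Subgroup G) (hA : A.Normal) (hJ : J.Normal) :
    (E0 A J hJ).Normal := by
  refine ⟨fun h hh g a ha => ?_⟩
  have e : a * (g * h * g⁻¹) * a⁻¹ * (g * h * g⁻¹)⁻¹ =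
      g * ((g⁻¹ * a * g⁻¹⁻¹) * h * (g⁻¹ * a * g⁻¹⁻¹)⁻¹ * h⁻¹) * g⁻¹ := by
    group
  rw [e]
  exact hJ.conj_mem _ (hh _ (hA.conj_mem a ha g⁻¹)) g

theorem isol_aux {G : Type} [Group G] {A T : Subgroup G} {P : Set G} {J : Subgroup G}
    (hA : A.Normal) (hAab : ∀ a ∈ A, ∀ b ∈ A, a * b = b * a) (hAT : A ≤ T) {τ : G}
    (hLev : Lev T P τ J) {h a : G} (ha : a ∈ A) {n : ℕ} (hn : 0 < n)
    (hb : h * a * h⁻¹ * a⁻¹ ∈ P) (hJn : h ^ n * a * (h ^ n)⁻¹ * a⁻¹ ∈ J) :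
    h * a * h⁻¹ * a⁻¹ ∈ J := by
  set b := h * a * h⁻¹ * a⁻¹ with hbdef
  have hbA : b ∈ A := A.mul_mem (hA.conj_mem a ha h) (A.inv_mem ha)
  have key : ∀ k : ℕ, 0 < k → (h ^ k * a * (h ^ k)⁻¹ * a⁻¹ ∈ A ∧
      (h ^ k * a * (h ^ k)⁻¹ * a⁻¹ = b ∨ b⁻¹ * (h ^ k * a * (h ^ k)⁻¹ * a⁻¹) ∈ P)) := by
    intro k hk
    induction k with
    | zero => exact absurd hk (lt_irrefl _)
    | succ k ih =>
      rcases Nat.eq_zero_or_pos k with h0 | h0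
      · subst h0
        simp only [zero_add, pow_one]
        exact ⟨hbA, Or.inl hbdef.symm⟩
      · obtain ⟨ih1, ih2⟩ := ih h0
        set β := h ^ k * a * (h ^ k)⁻¹ * a⁻¹ with hβ
        have e1 : h ^ (k + 1) * a * (h ^ (k + 1))⁻¹ * a⁻¹ = (h ^ k * b * (h ^ k)⁻¹) * β := by
          rw [hβ, hbdef, pow_succ]
          group
        have hcA : h ^ k * b * (h ^ k)⁻¹ ∈ A := hA.conj_mem b hbA (h ^ k)
        have hcP : h ^ k * b * (h ^ k)⁻¹ ∈ P := hLev.hP.conj b hb (h ^ k)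
        rw [e1]
        refine ⟨A.mul_mem hcA ih1, Or.inr ?_⟩
        have e2 : b⁻¹ * ((h ^ k * b * (h ^ k)⁻¹) * β) = (h ^ k * b * (h ^ k)⁻¹) * (b⁻¹ * β) := by
          have e3 := hAab _ (A.inv_mem hbA) _ hcA
          calc b⁻¹ * ((h ^ k * b * (h ^ k)⁻¹) * β) = (b⁻¹ * (h ^ k * b * (h ^ k)⁻¹)) * β :=
                (mul_assoc _ _ _).symm
            _ = ((h ^ k * b * (h ^ k)⁻¹) * b⁻¹) * β := by rw [e3]
            _ = (h ^ k * b * (h ^ k)⁻¹) * (b⁻¹ * β) := mul_assoc _ _ _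
        rw [e2]
        rcases ih2 with ih2 | ih2
        · rw [ih2, inv_mul_cancel, mul_one]
          exact hcP
        · exact hLev.hP.mul _ hcP _ ih2
  rcases (key n hn).2 with h1 | h1
  · rw [← h1]; exact hJn
  · exact hLev.hJ.conv _ hJn b (hAT hbA) hb h1

theorem isol {G : Type} [Group G] {A T : Subgroup G} {P : Set G} {J : Subgroup G}
    (hA : A.Normal) (hAab : ∀ a ∈ A, ∀ b ∈ A, a * b = b * a) (hAT : A ≤ T) {τ : G}
    (hLev : Lev T P τ J) {h : G} {n : ℕ} (hn : 0 < n) (hh : h ^ n ∈ E0 A J hLev.hJ.nor) :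
    h ∈ E0 A J hLev.hJ.nor := by
  intro a ha
  have conv : ∀ x : G, ∀ c ∈ A, c * x * c⁻¹ * x⁻¹ ∈ J → x * c * x⁻¹ * c⁻¹ ∈ J := by
    intro x c _ hx
    have := J.inv_mem hx
    have e : (c * x * c⁻¹ * x⁻¹)⁻¹ = x * c * x⁻¹ * c⁻¹ := by group
    rwa [e] at this
  suffices hb : h * a * h⁻¹ * a⁻¹ ∈ J by
    have := J.inv_mem hb
    have e : (h * a * h⁻¹ * a⁻¹)⁻¹ = a * h * a⁻¹ * h⁻¹ := by group
    rwa [e] at this
  have hbA : h * a * h⁻¹ * a⁻¹ ∈ A := A.mul_mem (hA.conj_mem a ha h) (A.inv_mem ha)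
  rcases hLev.htot _ (hAT hbA) with h1 | h1 | h1
  · rw [h1]; exact J.one_mem
  · exact isol_aux hA hAab hAT hLev ha hn h1 (conv _ a ha (hh a ha))
  · have e : (h * a * h⁻¹ * a⁻¹)⁻¹ = h * a⁻¹ * h⁻¹ * a⁻¹⁻¹ := by
      have e1 : (h * a * h⁻¹ * a⁻¹)⁻¹ = a * (h * a⁻¹ * h⁻¹) := by group
      rw [e1, hAab a ha _ (hA.conj_mem _ (A.inv_mem ha) h), inv_inv]
    rw [e] at h1
    have h2 := isol_aux hA hAab hAT hLev (A.inv_mem ha) hn h1
      (conv _ a⁻¹ (A.inv_mem ha) (hh a⁻¹ (A.inv_mem ha)))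
    rw [← e] at h2
    exact (J.inv_mem_iff).mp h2

theorem stepA2 {G : Type} [Group G] (A T : Subgroup G) (P : Set G) (J : Subgroup G) (hA : A.Normal)
    (hAab : ∀ a ∈ A, ∀ b ∈ A, a * b = b * a) (hAT : A ≤ T) (τ : G) (hLev : Lev T P τ J)
    (hnil : ∃ m, LS (⊤ : Subgroup G) m ≤ A) (g U : G) (hU : NS g U) (hAU : ∀ a ∈ A, a * U * a⁻¹ * U⁻¹ ∈ J)
    (hR : ∀ (N C : Subgroup G), N.Normal → C.Normal → C ≤ N → (∃ m, LS N m ≤ C) →
      (∀ h ∈ N, ∀ n : ℕ, 0 < n → h ^ n ∈ C → h ∈ C) → ∀ g U : G, g ∈ N → NS g U → U ∈ C → g ∈ C) :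
    ⁅A, Subgroup.normalClosure {g}⁆ ≤ J := by
  have hnor := E0_normal A J hA hLev.hJ.nor
  have hAE : A ≤ E0 A J hLev.hJ.nor := by
    intro h hh a ha
    have : a * h * a⁻¹ * h⁻¹ = 1 := by
      rw [hAab a ha h hh]; group
    rw [this]
    exact J.one_mem
  obtain ⟨m, hm⟩ := hnil
  have hg : g ∈ E0 A J hLev.hJ.nor :=
    hR ⊤ (E0 A J hLev.hJ.nor) (inferInstance) hnor le_top ⟨m, hm.trans hAE⟩
      (fun h _ n hn hh => isol hA hAab hAT hLev hn hh) g U (Subgroup.mem_top g) hU hAU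
  have hle : Subgroup.normalClosure {g} ≤ E0 A J hLev.hJ.nor := by
    haveI := hnor
    exact Subgroup.normalClosure_le_normal (Set.singleton_subset_iff.mpr hg)
  rw [Subgroup.commutator_le]
  intro a ha h hh
  rw [commutatorElement_def]
  exact hle hh a ha

end H294OStar
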