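import Pool.Agent.Helper294.OSt.Core
set_option autoImplicit false
set_option linter.all false

namespace H294OStar


/-- positive modulo `J` -/
def QQ {G : Type} [Group G] (T : Subgroup G) (P : Set G) (J : Subgroup G) : Set G :=
  {y | y ∈ T ∧ y ∈ P ∧ y ∉ J}

section aux663
variable {G : Type} [Group G] {T : Subgroup G} {P : Set G} {J : Subgroup G}

theorem qq_mulJ (hP : Cone P) (htot : ∀ y ∈ T, y = 1 ∨ y ∈ P ∨ y⁻¹ ∈ P) (hJ : CN T P J) {y j : G}
    (hy : y ∈ QQ T P J) (hj : j ∈ J) : y * j ∈ QQ T P J := by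
  obtain ⟨h1, h2, h3⟩ := hy
  have h4 : y * j ∉ J := fun h => h3 (by
    have := J.mul_mem h (J.inv_mem hj)
    simpa using this)
  have h5 : y * j ∈ T := T.mul_mem h1 (hJ.le hj)
  refine ⟨h5, ?_, h4⟩
  rcases htot _ h5 with h | h | h
  · exact absurd (h ▸ J.one_mem) h4
  · exact h
  · exfalso
    apply h3
    apply hJ.conv j⁻¹ (J.inv_mem hj) y h1 h2
    have := hP.conj _ h y⁻¹
    have e : y⁻¹ * (y * j)⁻¹ * y⁻¹⁻¹ = y⁻¹ * j⁻¹ := by group
    rwa [e] at this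

theorem qq_congr [J.Normal] (hP : Cone P) (htot : ∀ y ∈ T, y = 1 ∨ y ∈ P ∨ y⁻¹ ∈ P)
    (hJ : CN T P J) {x y : G} (hx : x ∈ QQ T P J)
    (h : QuotientGroup.mk' J x = QuotientGroup.mk' J y) : y ∈ QQ T P J := by
  have h1 : x⁻¹ * y ∈ J := QuotientGroup.eq.1 h
  have := qq_mulJ hP htot hJ hx h1
  rwa [mul_inv_cancel_left] at this

theorem qq_mul (hP : Cone P) (hJ : CN T P J) {x y : G} (hx : x ∈ QQ T P J) (hy : y ∈ QQ T P J) :
    x * y ∈ QQ T P J := by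
  refine ⟨T.mul_mem hx.1 hy.1, hP.mul _ hx.2.1 _ hy.2.1, fun h => ?_⟩
  apply hx.2.2
  apply hJ.conv _ h x hx.1 hx.2.1
  rw [inv_mul_cancel_left]
  exact hy.2.1

theorem qq_conj (hT : T.Normal) (hP : Cone P) (hJn : J.Normal) {x : G} (hx : x ∈ QQ T P J) (g : G) :
    g * x * g⁻¹ ∈ QQ T P J := by
  refine ⟨hT.conj_mem _ hx.1 g, hP.conj _ hx.2.1 g, fun h => hx.2.2 ?_⟩
  have := hJn.conj_mem _ h g⁻¹
  have e : g⁻¹ * (g * x * g⁻¹) * g⁻¹⁻¹ = x := by group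
  rwa [e] at this

theorem qq_Pmul [J.Normal] (hP : Cone P) (htot : ∀ y ∈ T, y = 1 ∨ y ∈ P ∨ y⁻¹ ∈ P)
    (hJ : CN T P J) {p q : G}
    (hpT : p ∈ T) (hpP : p ∈ P) (hq : q ∈ QQ T P J) : p * q ∈ QQ T P J := by
  by_cases h : p ∈ J
  · refine qq_congr hP htot hJ hq ?_
    rw [map_mul, show QuotientGroup.mk' J p = 1 from (QuotientGroup.eq_one_iff _).2 h, one_mul]
  · exact qq_mul hP hJ ⟨hpT, hpP, h⟩ hq

theorem qq_not_both (hP : Cone P) {x : G} (hx : x ∈ QQ T P J) (hx' : x⁻¹ ∈ QQ T P J) : False := by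
  have := hP.mul _ hx.2.1 _ hx'.2.1
  rw [mul_inv_cancel] at this
  exact hP.one this

theorem qq_pow (hP : Cone P) (hJ : CN T P J) {c : G} (hc : c ∈ QQ T P J) (n : ℕ) :
    c ^ (n + 1) ∈ QQ T P J := by
  induction n with
  | zero => simpa using hc
  | succ n ih => rw [pow_succ]; exact qq_mul hP hJ ih hc

theorem aux663_comm [J.Normal] {x : G} (h : Cen J x) (g : G) :
    Commute (QuotientGroup.mk' J g) (QuotientGroup.mk' J x) := by
  have h2 : QuotientGroup.mk' J (x * g * x⁻¹ * g⁻¹) = 1 := (QuotientGroup.eq_one_iff _).2 (h g)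
  rw [map_mul, map_mul, map_mul, map_inv, map_inv] at h2
  have h3 : QuotientGroup.mk' J x * QuotientGroup.mk' J g =
      QuotientGroup.mk' J g * QuotientGroup.mk' J x := by
    rw [mul_inv_eq_one, mul_inv_eq_iff_eq_mul] at h2; exact h2
  exact h3.symm

/-- convex subgroup generated by a central element -/
theorem aux663_D (hT : T.Normal) (hP : Cone P) (htot : ∀ y ∈ T, y = 1 ∨ y ∈ P ∨ y⁻¹ ∈ P)
    (hJ : CN T P J) {c : G} (hc : c ∈ QQ T P J) (hcen : Cen J c) :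
    ∃ D : Subgroup G, CN T P D ∧ c ∈ D ∧ ∀ y ∈ D, ∃ n : ℕ, y⁻¹ * c ^ (n + 1) ∈ QQ T P J ∧
      y * c ^ (n + 1) ∈ QQ T P J := by
  haveI hJn := hJ.nor
  let D : Subgroup G :=
    { carrier := {y | y ∈ T ∧ ∃ n : ℕ, y⁻¹ * c ^ (n + 1) ∈ QQ T P J ∧ y * c ^ (n + 1) ∈ QQ T P J}
      one_mem' := ⟨T.one_mem, 0, by simpa using hc, by simpa using hc⟩
      mul_mem' := by
        rintro x y ⟨hx, n, hn1, hn2⟩ ⟨hy, m, hm1, hm2⟩
        refine ⟨T.mul_mem hx hy, n + m + 1, ?_, ?_⟩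
        · have e : (x * y)⁻¹ * c ^ (n + m + 1 + 1) =
              (y⁻¹ * (x⁻¹ * c ^ (n + 1)) * y⁻¹⁻¹) * (y⁻¹ * c ^ (m + 1)) := by
            have : c ^ (n + m + 1 + 1) = c ^ (n + 1) * c ^ (m + 1) := by
              rw [← pow_add]; congr 1; ring
            rw [this]; group
          rw [e]
          exact qq_mul hP hJ (qq_conj hT hP hJn hn1 _) hm1
        · have e : (x * y) * c ^ (n + m + 1 + 1) =
              (x * (y * c ^ (m + 1)) * x⁻¹) * (x * c ^ (n + 1)) := by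
            have : c ^ (n + m + 1 + 1) = c ^ (m + 1) * c ^ (n + 1) := by
              rw [← pow_add]; congr 1; ring
            rw [this]; group
          rw [e]
          exact qq_mul hP hJ (qq_conj hT hP hJn hm2 _) hn2
      inv_mem' := by
        rintro x ⟨hx, n, hn1, hn2⟩
        exact ⟨T.inv_mem hx, n, by rw [inv_inv]; exact hn2, hn1⟩ }
  have hDn : D.Normal := by
    refine ⟨?_⟩
    rintro y ⟨hy, n, hn1, hn2⟩ g
    refine ⟨hT.conj_mem _ hy g, n, ?_, ?_⟩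
    · refine qq_congr hP htot hJ (qq_conj hT hP hJn hn1 g) ?_
      simp only [map_mul, map_inv, map_pow]
      have hcm := ((aux663_comm hcen g⁻¹).pow_right (n + 1)).eq
      rw [map_inv] at hcm
      simp only [mul_assoc]
      rw [← hcm]
      simp only [mul_inv_rev, inv_inv, mul_assoc]
    · refine qq_congr hP htot hJ (qq_conj hT hP hJn hn2 g) ?_
      simp only [map_mul, map_inv, map_pow]
      have hcm := ((aux663_comm hcen g⁻¹).pow_right (n + 1)).eq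
      rw [map_inv] at hcm
      simp only [mul_assoc]
      rw [← hcm]
  refine ⟨D, ⟨hDn, fun y hy => hy.1, ?_⟩, ?_, fun y hy => hy.2⟩
  · rintro a ⟨haT, n, hn1, hn2⟩ b hbT hbP hab
    refine ⟨hbT, n, ?_, ?_⟩
    · have e : b⁻¹ * c ^ (n + 1) = (b⁻¹ * a) * (a⁻¹ * c ^ (n + 1)) := by group
      rw [e]
      exact qq_Pmul hP htot hJ (T.mul_mem (T.inv_mem hbT) haT) hab hn1
    · exact qq_Pmul hP htot hJ hbT hbP (qq_pow hP hJ hc n)
  · refine ⟨hc.1, 1, ?_, ?_⟩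
    · have e : c⁻¹ * c ^ (1 + 1) = c := by rw [pow_succ, pow_one]; group
      rw [e]; exact hc
    · have := qq_mul hP hJ hc (qq_pow hP hJ hc 1)
      exact this

/-- iterated commutators of an element -/
def It (τ : G) : ℕ → Set G
  | 0 => {τ}
  | (k + 1) => {z | ∃ x ∈ It τ k, ∃ w : G, z = x * w * x⁻¹ * w⁻¹}

theorem It_sub (τ : G) (N : Subgroup G) (hN : N.Normal) (hτ : τ ∈ N) : ∀ k, ∀ z ∈ It τ k, z ∈ N := by
  intro k
  induction k with
  | zero => rintro z rfl; exact hτ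
  | succ k ih =>
    rintro z ⟨x, hx, w, rfl⟩
    have h1 := ih x hx
    have h2 := hN.conj_mem _ (N.inv_mem h1) w
    have e : x * w * x⁻¹ * w⁻¹ = x * (w * x⁻¹ * w⁻¹) := by group
    rw [e]
    exact N.mul_mem h1 h2

theorem It_LS (τ : G) (L : Subgroup G) (hτ : τ ∈ L) : ∀ k, ∀ z ∈ It τ k, z ∈ LS L k := by
  intro k
  induction k with
  | zero => rintro z rfl; exact hτ
  | succ k ih =>
    rintro z ⟨x, hx, w, rfl⟩
    have h1 := Subgroup.commutator_mem_commutator (ih x hx) (Subgroup.mem_top w)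
    rw [commutatorElement_def] at h1
    exact h1

/-- the key contradiction -/
theorem aux663_key [J.Normal] (hT : T.Normal) (hP : Cone P) (htot : ∀ y ∈ T, y = 1 ∨ y ∈ P ∨ y⁻¹ ∈ P)
    (hJ : CN T P J) (τ : G) (hτJ : τ ∉ J) (max : ∀ K : Subgroup G, CN T P K → τ ∉ K → K ≤ J)
    {c : G} (hc : c ∈ QQ T P J) (hcen : Cen J c) (ρ v : G)
    (hρ : ∀ N : Subgroup G, N.Normal → τ ∈ N → ρ ∈ N)
    (hv : QuotientGroup.mk' J (v * ρ * v⁻¹) = QuotientGroup.mk' J (c⁻¹ * ρ)) : False := by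
  haveI hJn := hJ.nor
  obtain ⟨D, hD, hcD, hDm⟩ := aux663_D hT hP htot hJ hc hcen
  have hτD : τ ∈ D := by
    by_contra h
    exact hc.2.2 (max D hD h hcD)
  obtain ⟨n, hn1, hn2⟩ := hDm ρ (hρ D hD.nor hτD)
  set C := QuotientGroup.mk' J c with hC
  set R := QuotientGroup.mk' J ρ with hR
  set V := QuotientGroup.mk' J v with hV
  have hCc : ∀ g : G, Commute (QuotientGroup.mk' J g) C := fun g => aux663_comm hcen g
  have hVR : V * R * V⁻¹ = C⁻¹ * R := by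
    have := hv
    rw [map_mul, map_mul, map_inv, map_mul, map_inv] at this
    exact this
  have hVC : V * C = C * V := (hCc v).eq
  have hRC : R * C = C * R := (hCc ρ).eq
  have hVR' : V⁻¹ * R * V = C * R := by
    have h1 : V * R = C⁻¹ * R * V := mul_inv_eq_iff_eq_mul.1 hVR
    have h2 : V * (C * R) = R * V := by
      rw [← mul_assoc, hVC, mul_assoc, h1]; group
    rw [mul_assoc, ← h2, inv_mul_cancel_left]
  have hpos : ∀ m : ℕ, V ^ m * R * (V ^ m)⁻¹ = (C ^ m)⁻¹ * R := by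
    intro m
    induction m with
    | zero => simp
    | succ m ih =>
      have hVCm : V * (C ^ m)⁻¹ = (C ^ m)⁻¹ * V := (((hCc v).pow_right m).inv_right).eq
      calc V ^ (m + 1) * R * (V ^ (m + 1))⁻¹ = V * (V ^ m * R * (V ^ m)⁻¹) * V⁻¹ := by
            rw [pow_succ']; group
        _ = V * ((C ^ m)⁻¹ * R) * V⁻¹ := by rw [ih]
        _ = (V * (C ^ m)⁻¹) * R * V⁻¹ := by group
        _ = (C ^ m)⁻¹ * (V * R * V⁻¹) := by rw [hVCm]; group
        _ = (C ^ m)⁻¹ * (C⁻¹ * R) := by rw [hVR]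
        _ = (C ^ (m + 1))⁻¹ * R := by rw [pow_succ']; group
  have hneg : ∀ m : ℕ, (V ^ m)⁻¹ * R * V ^ m = C ^ m * R := by
    intro m
    induction m with
    | zero => simp
    | succ m ih =>
      have hVCm : V⁻¹ * C ^ m = C ^ m * V⁻¹ := (((hCc v).inv_left).pow_right m).eq
      calc (V ^ (m + 1))⁻¹ * R * V ^ (m + 1) = V⁻¹ * ((V ^ m)⁻¹ * R * V ^ m) * V := by
            rw [pow_succ]; group
        _ = V⁻¹ * (C ^ m * R) * V := by rw [ih]
        _ = (V⁻¹ * C ^ m) * R * V := by group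
        _ = C ^ m * (V⁻¹ * R * V) := by rw [hVCm]; group
        _ = C ^ m * (C * R) := by rw [hVR']
        _ = C ^ (m + 1) * R := by rw [pow_succ]; group
  -- ρ⁻¹ is positive
  have h1 : ρ⁻¹ ∈ QQ T P J := by
    have h2 : (v ^ (n + 1) * ρ * (v ^ (n + 1))⁻¹)⁻¹ ∈ QQ T P J := by
      refine qq_congr hP htot hJ hn1 ?_
      rw [show QuotientGroup.mk' J ((v ^ (n + 1) * ρ * (v ^ (n + 1))⁻¹)⁻¹) =
          (V ^ (n + 1) * R * (V ^ (n + 1))⁻¹)⁻¹ from by
            simp only [map_inv, map_mul, map_pow, hV, hR], hpos,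
        show QuotientGroup.mk' J (ρ⁻¹ * c ^ (n + 1)) = R⁻¹ * C ^ (n + 1) from by
            simp only [map_inv, map_mul, map_pow, hC, hR], mul_inv_rev, inv_inv]
    have h3 := qq_conj hT hP hJn h2 (v ^ (n + 1))⁻¹
    have e : (v ^ (n + 1))⁻¹ * (v ^ (n + 1) * ρ * (v ^ (n + 1))⁻¹)⁻¹ * (v ^ (n + 1))⁻¹⁻¹ = ρ⁻¹ := by
      group
    rwa [e] at h3
  have h2 : ρ ∈ QQ T P J := by
    have h2 : ((v ^ (n + 1))⁻¹ * ρ * v ^ (n + 1)) ∈ QQ T P J := by
      refine qq_congr hP htot hJ hn2 ?_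
      rw [show QuotientGroup.mk' J ((v ^ (n + 1))⁻¹ * ρ * v ^ (n + 1)) =
          (V ^ (n + 1))⁻¹ * R * V ^ (n + 1) from by
            simp only [map_inv, map_mul, map_pow, hV, hR], hneg,
        show QuotientGroup.mk' J (ρ * c ^ (n + 1)) = R * C ^ (n + 1) from by
            simp only [map_inv, map_mul, map_pow, hC, hR]]
      exact ((hCc ρ).pow_right (n + 1)).eq
    have h3 := qq_conj hT hP hJn h2 (v ^ (n + 1))
    have e : (v ^ (n + 1)) * ((v ^ (n + 1))⁻¹ * ρ * v ^ (n + 1)) * (v ^ (n + 1))⁻¹ = ρ := by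
      group
    rwa [e] at h3
  exact qq_not_both hP h2 h1

end aux663

theorem tau_central {G : Type} [Group G] (T : Subgroup G) (P : Set G) (τ : G) (J L : Subgroup G)
    (hLev : Lev T P τ J) (hL : L.Normal) (hLT : L ≤ T) (hτL : τ ∈ L) (hk : ∃ k, LS L k ≤ J) : Cen J τ := by
  classical
  obtain ⟨hT, hP, htot, hτT, hτP, hJ, hτJ, max⟩ := hLev
  haveI hJn := hJ.nor
  have hex : ∃ k, ∀ z ∈ It τ k, z ∈ J := by
    obtain ⟨k, hk⟩ := hk
    exact ⟨k, fun z hz => hk (It_LS τ L hτL k z hz)⟩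
  obtain ⟨k, hk1, hk2⟩ : ∃ k, (∀ z ∈ It τ k, z ∈ J) ∧ ∀ m < k, ¬ ∀ z ∈ It τ m, z ∈ J :=
    ⟨Nat.find hex, Nat.find_spec hex, fun m hm => Nat.find_min hex hm⟩
  match k, hk1, hk2 with
  | 0, h1, _ => exact absurd (h1 τ rfl) hτJ
  | 1, h1, _ => exact fun w => h1 _ ⟨τ, rfl, w, rfl⟩
  | (i + 2), h1, h2 =>
    exfalso
    have h3 := h2 (i + 1) (by omega)
    push Not at h3
    obtain ⟨z, ⟨ρ, hρ, w, hz⟩, hzJ⟩ := h3
    have hzIt : z ∈ It τ (i + 1) := ⟨ρ, hρ, w, hz⟩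
    have hzc : Cen J z := fun w => h1 _ ⟨z, hzIt, w, rfl⟩
    have hzT : z ∈ T := It_sub τ T hT hτT (i + 1) z hzIt
    have hρN : ∀ N : Subgroup G, N.Normal → τ ∈ N → ρ ∈ N := fun N hN hτN => It_sub τ N hN hτN i ρ hρ
    have hwρ : w * ρ * w⁻¹ = z⁻¹ * ρ := by rw [hz]; group
    rcases htot z hzT with h | h | h
    · exact hzJ (h ▸ J.one_mem)
    · exact aux663_key hT hP htot hJ τ hτJ max (c := z) ⟨hzT, h, hzJ⟩ hzc ρ w hρN (by rw [hwρ])
    · have hzi : z⁻¹ ∉ J := fun h => hzJ (by simpa using J.inv_mem h)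
      have hzic : Cen J z⁻¹ := by
        intro g
        rw [← QuotientGroup.eq_one_iff]
        change QuotientGroup.mk' J (z⁻¹ * g * z⁻¹⁻¹ * g⁻¹) = 1
        have hc := ((aux663_comm hzc g).inv_right).eq
        simp only [map_mul, map_inv, inv_inv]
        rw [← hc]
        group
      refine aux663_key hT hP htot hJ τ hτJ max (c := z⁻¹) ⟨T.inv_mem hzT, h, hzi⟩ hzic ρ w⁻¹ hρN ?_
      have hc := (aux663_comm hzc w⁻¹).eq
      have e1 : w⁻¹ * ρ * w⁻¹⁻¹ = (w⁻¹ * z * w) * ρ := by rw [hz]; group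
      rw [e1, inv_inv, map_mul, map_mul, map_mul, hc, map_mul]
      simp only [map_inv, mul_assoc, inv_mul_cancel_left, inv_mul_cancel, mul_one]

end H294OStar
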