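import Pool.Agent.Helper294.OSt.M_U_central
import Pool.Agent.Helper294.OSt.M_exists_J
import Pool.Agent.Helper294.OSt.M_exists_T
import Pool.Agent.Helper294.OSt.M_exists_max_cone
import Pool.Agent.Helper294.OSt.M_fg_mod
import Pool.Agent.Helper294.OSt.M_final
import Pool.Agent.Helper294.OSt.M_localize
import Pool.Agent.Helper294.OSt.M_ls_comm
import Pool.Agent.Helper294.OSt.M_noncomp
import Pool.Agent.Helper294.OSt.M_ore_common
import Pool.Agent.Helper294.OSt.M_rel_torsion
import Pool.Agent.Helper294.OSt.M_stepA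
import Pool.Agent.Helper294.OSt.M_stepA2
import Pool.Agent.Helper294.OSt.M_tau_central
set_option autoImplicit false
set_option linter.all false
namespace H294OStar

theorem NS.trans {G : Type} [Group G] {g s U : G} (hs : NS g s) (hU : NS s U) : NS g U := by
  have hc : ∀ x y : G, NS g x → NS g (y * x * y⁻¹) := by
    intro x y hx
    induction hx with
    | conj z => rw [show y * (z * g * z⁻¹) * y⁻¹ = (y * z) * g * (y * z)⁻¹ by group]; exact NS.conj _
    | mul a b _ _ iha ihb => rw [show y * (a * b) * y⁻¹ = (y * a * y⁻¹) * (y * b * y⁻¹) by group]; exact NS.mul _ _ iha ihb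
  induction hU with
  | conj x => exact hc s x hs
  | mul a b _ _ iha ihb => exact NS.mul _ _ iha ihb

theorem NS.pos {G : Type} [Group G] {P : Set G} (hP : Cone P) {s U : G} (hs : s ∈ P) (hU : NS s U) : U ∈ P := by
  induction hU with
  | conj x => exact hP.conj _ hs x
  | mul a b _ _ iha ihb => exact hP.mul _ iha _ ihb

theorem NS.neg {G : Type} [Group G] {P : Set G} (hP : Cone P) {s U : G} (hs : s⁻¹ ∈ P) (hU : NS s U) : U⁻¹ ∈ P := by
  induction hU with
  | conj x => rw [show (x * s * x⁻¹)⁻¹ = x * s⁻¹ * x⁻¹ by group]; exact hP.conj _ hs x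
  | mul a b _ _ iha ihb => rw [mul_inv_rev]; exact hP.mul _ ihb _ iha

theorem Cone.inv_not {G : Type} [Group G] {P : Set G} (hP : Cone P) {a : G} (h : a ∈ P) (h' : a⁻¹ ∈ P) : False :=
  hP.one (by have := hP.mul _ h _ h'; rwa [mul_inv_cancel] at this)

/-- the subgroup of elements central modulo `T` -/
def cenSub {G : Type} [Group G] (T : Subgroup G) (hT : T.Normal) : Subgroup G where
  carrier := {h | Cen T h}
  one_mem' := by intro w; simp
  mul_mem' := by
    intro a b ha hb w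
    have h1 := ha (b * w * b⁻¹)
    have h2 := hb w
    have : a * b * w * (a * b)⁻¹ * w⁻¹ = (a * (b * w * b⁻¹) * a⁻¹ * (b * w * b⁻¹)⁻¹) * (b * w * b⁻¹ * w⁻¹) := by group
    rw [this]; exact T.mul_mem h1 h2
  inv_mem' := by
    intro a ha w
    have : a⁻¹ * w * a⁻¹⁻¹ * w⁻¹ = a⁻¹ * ((a * w * a⁻¹ * w⁻¹)⁻¹) * a⁻¹⁻¹ := by group
    rw [this]; exact hT.conj_mem _ (T.inv_mem (ha w)) _

theorem cenSub_normal {G : Type} [Group G] (T : Subgroup G) (hT : T.Normal) : (cenSub T hT).Normal := by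
  constructor
  intro a ha g w
  have h1 : Cen T a := ha
  have h2 := hT.conj_mem _ (h1 (g⁻¹ * w * g)) g
  have : g * a * g⁻¹ * w * (g * a * g⁻¹)⁻¹ * w⁻¹ = g * (a * (g⁻¹ * w * g) * a⁻¹ * (g⁻¹ * w * g)⁻¹) * g⁻¹ := by group
  rw [this]; exact h2

theorem cen_of_NS {G : Type} [Group G] {T : Subgroup G} (hT : T.Normal) {g U : G} (hg : Cen T g) (hU : NS g U) : Cen T U := by
  have hN := cenSub_normal T hT
  have : U ∈ cenSub T hT := by
    induction hU with
    | conj x => exact hN.conj_mem g hg x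
    | mul a b _ _ iha ihb => exact (cenSub T hT).mul_mem iha ihb
  exact this

theorem asm_NS_mem {G : Type} [Group G] {K : Subgroup G} (hK : K.Normal) {g U : G} (hg : g ∈ K) (hU : NS g U) : U ∈ K := by
  induction hU with
  | conj x => exact hK.conj_mem g hg x
  | mul a b _ _ iha ihb => exact K.mul_mem iha ihb

theorem asm_LS_mono {G : Type} [Group G] {N M : Subgroup G} (h : N ≤ M) : ∀ k, LS N k ≤ LS M k
  | 0 => h
  | (k + 1) => Subgroup.commutator_mono (asm_LS_mono h k) le_rfl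

/-- nilpotency of `G/A` in terms of `LS` -/
theorem ls_of_nilpotent {G : Type} [Group G] (A : Subgroup G) [hA : A.Normal] (hnil : Group.IsNilpotent (G ⧸ A)) :
    ∃ m, LS (⊤ : Subgroup G) m ≤ A := by
  obtain ⟨m, hm⟩ := (nilpotent_iff_lowerCentralSeries (G := G ⧸ A)).1 hnil
  refine ⟨m, ?_⟩
  have key : ∀ k, (LS (⊤ : Subgroup G) k).map (QuotientGroup.mk' A) ≤ Subgroup.lowerCentralSeries (⊤ : Subgroup (G ⧸ A)) k := by
    intro k
    induction k with
    | zero => simp [Subgroup.lowerCentralSeries]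
    | succ k ih =>
      show (⁅LS (⊤ : Subgroup G) k, (⊤ : Subgroup G)⁆).map (QuotientGroup.mk' A) ≤ _
      rw [Subgroup.map_commutator]
      exact Subgroup.commutator_mono ih le_top
  intro x hx
  have h1 := key m (Subgroup.mem_map_of_mem _ hx)
  rw [hm, Subgroup.mem_bot] at h1
  exact (QuotientGroup.eq_one_iff x).1 h1

/-- the finitely generated case, given the Ore condition for `ℕ[G/A]` -/
theorem fg_case {G : Type} [Group G] (A : Subgroup G) [hA : A.Normal] (hAab : ∀ a ∈ A, ∀ b ∈ A, a * b = b * a)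
    (hnil : Group.IsNilpotent (G ⧸ A)) (hsub : ∀ H : Subgroup (G ⧸ A), H.FG)
    (hOre : ∀ f g : MonoidAlgebra ℕ (G ⧸ A), f ≠ 0 → g ≠ 0 →
      ∃ s t : MonoidAlgebra ℕ (G ⧸ A), s ≠ 0 ∧ t ≠ 0 ∧ s * f = t * g)
    (T0 : Set G) (hT0 : Cone T0) (hT0t : Total T0) (P0 : Set G) (hP0 : Cone P0) :
    ∃ P : Set G, P0 ⊆ P ∧ Cone P ∧ Total P := by
  obtain ⟨P, hPP, hP, hmax⟩ := exists_max_cone P0 hP0
  refine ⟨P, hPP, hP, ?_⟩
  by_contra hnt
  have hR := fun (N C : Subgroup G) (h1 : N.Normal) (h2 : C.Normal) (h3 : C ≤ N) (h4 : ∃ m, LS N m ≤ C)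
    (h5 : ∀ h ∈ N, ∀ n : ℕ, 0 < n → h ^ n ∈ C → h ∈ C) (g U : G) (h6 : g ∈ N) (h7 : NS g U) (h8 : U ∈ C) =>
    rel_torsion N C h1 h2 h3 h4 h5 g U h6 h7 h8
  -- `A` is comparable
  have hAt : ∀ a ∈ A, a = 1 ∨ a ∈ P ∨ a⁻¹ ∈ P := by
    intro a ha
    by_contra hcon
    push Not at hcon
    obtain ⟨s, t, hs, ht, hsP, htP⟩ := noncomp P hP hmax T0 hT0 hT0t a hcon.1 hcon.2.1 hcon.2.2
    obtain ⟨U, V, hU, hV, hUV⟩ := ore_common A A ⊥ hA hA inferInstance bot_le
      (fun x hx y hy => by rw [Subgroup.mem_bot, hAab x hx y hy]; group)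
      (fun x hx y hy => by rw [Subgroup.mem_bot, hAab x hx y hy]; group) hOre a ha s t hs ht
    rw [Subgroup.mem_bot, inv_mul_eq_one] at hUV
    subst hUV
    exact hP.inv_not (NS.pos hP htP hV) (NS.neg hP hsP hU)
  obtain ⟨T, g, hT, hAT, hTt, hgT, hg1, hg, hg'⟩ := exists_T A hA hnil P hP hAt hnt
  obtain ⟨s, t, hs, ht, hsP, htP⟩ := noncomp P hP hmax T0 hT0 hT0t g hg1 hg hg'
  set N : Subgroup G := Subgroup.normalClosure {g} with hNdef
  have hN : N.Normal := Subgroup.normalClosure_normal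
  have hgN : g ∈ N := Subgroup.subset_normalClosure (Set.mem_singleton g)
  set L : Subgroup G := ⁅N, N⁆ ⊔ ⁅A, N⁆ with hLdef
  have hL : L.Normal := by rw [hLdef]; infer_instance
  have hLN : L ≤ N := sup_le (Subgroup.commutator_le_right N N) (Subgroup.commutator_le_right A N)
  obtain ⟨U, V, hU, hV, hUV⟩ := ore_common A N L hA hN hL hLN
      (fun x hx y hy => Subgroup.mem_sup_left (Subgroup.commutator_mem_commutator hx hy))
      (fun x hx y hy => Subgroup.mem_sup_right (Subgroup.commutator_mem_commutator hx hy)) hOre g hgN s t hs ht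
  have hUg : NS g U := NS.trans hs hU
  have hUP : U⁻¹ ∈ P := NS.neg hP hsP hU
  have hVP : V ∈ P := NS.pos hP htP hV
  have hτP : U⁻¹ * V ∈ P := hP.mul _ hUP _ hVP
  have hNT : ∀ x ∈ N, Cen T x := by
    have h1 : N ≤ cenSub T hT := by
      haveI := cenSub_normal T hT
      refine Subgroup.normalClosure_le_normal ?_
      rintro x rfl; exact hgT
    exact fun x hx => h1 hx
  have hLT : L ≤ T := by
    rw [hLdef, sup_le_iff]
    constructor
    · rw [Subgroup.commutator_le]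
      intro x hx y _
      exact hNT x hx y
    · exact (Subgroup.commutator_le_left A N).trans hAT
  obtain ⟨J, hLev⟩ := exists_J T P (U⁻¹ * V) hT hP hTt (hLT hUV) hτP
  have hm := ls_of_nilpotent A hnil
  obtain ⟨m, hm'⟩ := id hm
  have hAU := stepA A T P J hA hAab hAT U V hUP hVP hLev (fg_mod A hsub U)
  have hAN := stepA2 A T P J hA hAab hAT _ hLev hm g U hUg hAU hR
  have hk := ls_comm A N J hA hN hLev.hJ.nor m ((asm_LS_mono le_top m).trans hm') hAN
  have hτc := tau_central T P _ J L hLev hL hLT hUV hk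
  have hUc := U_central T P J U V hUP hVP hLev hτc (cen_of_NS hT hgT hUg)
  have hNN := final A T P _ J hA hAT hLev hm g U hUg hgT hUc hAN hR
  exact hLev.hτJ ((sup_le hNN hAN : L ≤ J) hUV)

end H294OStar
namespace H294OStar

/-- Orderable abelian-by-nilpotent groups are `O*`, given the Ore condition and subgroup finite generation for finitely generated nilpotent groups. -/
theorem general {G : Type} [Group G] (A : Subgroup G) [hA : A.Normal] (hAab : ∀ a ∈ A, ∀ b ∈ A, a * b = b * a)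
    (hnil : Group.IsNilpotent (G ⧸ A))
    (hsub : ∀ (Q : Type) [Group Q] [Group.IsNilpotent Q] [Group.FG Q], ∀ H : Subgroup Q, H.FG)
    (hOre : ∀ (Q : Type) [Group Q] [Group.IsNilpotent Q] [Group.FG Q], ∀ f g : MonoidAlgebra ℕ Q, f ≠ 0 → g ≠ 0 →
      ∃ s t : MonoidAlgebra ℕ Q, s ≠ 0 ∧ t ≠ 0 ∧ s * f = t * g)
    (T0 : Set G) (hT0 : Cone T0) (hT0t : Total T0) (P0 : Set G) (hP0 : Cone P0) :
    ∃ P : Set G, P0 ⊆ P ∧ Cone P ∧ Total P := by
  obtain ⟨P, hPP, hP, hmax⟩ := exists_max_cone P0 hP0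
  refine ⟨P, hPP, hP, ?_⟩
  intro g hg1
  by_contra hcon
  push Not at hcon
  obtain ⟨s, t, hs, ht, hsP, htP⟩ := noncomp P hP hmax T0 hT0 hT0t g hg1 hcon.1 hcon.2
  refine localize ?_ P hP g s t hs ht hsP htP hg1
  intro H hH PH hPH
  haveI : Group.FG H := (Group.fg_iff_subgroup_fg H).2 hH
  haveI hAn : (A.subgroupOf H).Normal := Subgroup.normal_subgroupOf
  have hnilH : Group.IsNilpotent (H ⧸ A.subgroupOf H) := by
    haveI := hnil
    refine Subgroup.isNilpotent_of_ker_le_center (QuotientGroup.map (A.subgroupOf H) A H.subtype le_rfl) ?_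
    intro x hx
    obtain ⟨y, rfl⟩ := QuotientGroup.mk_surjective x
    rw [MonoidHom.mem_ker] at hx
    have h1 : ((H.subtype y : G) : G ⧸ A) = 1 := hx
    have h2 : (y : G) ∈ A := (QuotientGroup.eq_one_iff _).1 h1
    have h3 : ((y : H) : H ⧸ A.subgroupOf H) = 1 := (QuotientGroup.eq_one_iff y).2 (Subgroup.mem_subgroupOf.2 h2)
    rw [h3]; exact Subgroup.one_mem _
  let TH : Set H := {h | (h : G) ∈ T0}
  have hTH : Cone TH := ⟨fun a ha b hb => hT0.mul _ ha _ hb, fun a ha g => hT0.conj _ ha g, hT0.one⟩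
  have hTHt : Total TH := by
    intro h hh
    have : (h : G) ≠ 1 := fun h' => hh (Subtype.ext h')
    exact hT0t _ this
  exact fg_case (A.subgroupOf H) (fun a ha b hb => Subtype.ext (hAab _ ha _ hb)) hnilH (hsub _) (hOre _) TH hTH hTHt PH hPH

end H294OStar

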